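import Pool.Agent.K7.H9.VC.MarksLim
import Pool.Agent.W613.QAT.Cont
import Pool.Agent.W193.QAT.R1
import Pool.Agent.W591.QAT.Reid
import Pool.Agent.W683.QAT.Slide
import Pool.Agent.H550R3.Jones.SanSkein699


/-!
# Alternating and non-alternating edges and the growth of the Kashaev invariants of all links along the odd integers

An edge of a link diagram (between two consecutive crossings) is alternating if it passes over at one
of its ends and under at the other.  Every crossing contributes to the growth rate of the Kashaev
invariants at most
`v_8` if its four half-edges belong to alternating edges, and otherwise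
`(1 + s) v_3`, where `s` is the number of the two strands at the crossing that meet an alternating
edge there (so `v_3`, `2 v_3` or `3 v_3 < v_8`),
where `v_3 = 3 Λ(π/3) = 1.01494…` and `v_8 = 8 Λ(π/4) = 3.66386…` are the volumes of the regular
ideal tetrahedron and octahedron.  The diagram is cut open at a point: the crossings which the open
strand passes, over from the bottom and under to the top, contribute nothing, and the crossings where
these two parts of the strand end contribute at most `2 v_3`.  Precise statement, as `N → ∞` through the odd integers: `result`.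

A link diagram, cut open at one point, is a list of pieces from bottom to top: cups, caps, and
twist regions (`m` crossings in a row of two neighbouring strands; one crossing for `m = 1`).
Everything is defined from the R-matrix of `U_q(sl_2)`, with `v = q^{1/2}` and
`{k} = v^k - v^{-k}`.  The `N`-coloured Jones polynomial is the (scalar) operator of the
(1,1)-tangle, read off at the highest weight vector.  The Kashaev invariant is its value at
`v = exp (π i / N)`, that is `q = exp (2 π i / N)`; changes of the framing and of the orientations
multiply it by a number of absolute value `1`.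
-/

set_option autoImplicit false

namespace Pool.Agent.Results.MP_b30479_gt.AlternationBoundOdd

open Finset Filter Topology

/-! ### The coloured Jones polynomial -/

/-- `{n} = v^n - v^{-n}` -/
noncomputable def br (v : ℂ) (n : ℤ) : ℂ := v ^ n - v ^ (-n)

/-- `{n}! = {1} {2} ⋯ {n}` -/
noncomputable def brf (v : ℂ) (n : ℕ) : ℂ := ∏ j ∈ range n, br v ((j : ℤ) + 1)

/-- The positive crossing: the R-matrix of `U_q(sl_2)` on `V_N ⊗ V_N`, `V_N` with basis
`e_0, …, e_{N-1}`, times the framing factor `v^{-(N^2-1)/2}`; `crossP N v p q` is the coefficient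
of `e_{p.1} ⊗ e_{p.2}` in the image of `e_{q.1} ⊗ e_{q.2}`:
`e_i ⊗ e_j ↦ ∑_n v^{-(N-1)(1+i+j) + 2(i-n)(j+n) + n(n-1)/2}
({j+n}! / ({j}! {n}!)) ∏_{t<n} {N-i+t} e_{j+n} ⊗ e_{i-n}`. -/
noncomputable def crossP (N : ℕ) (v : ℂ) : Matrix (Fin N × Fin N) (Fin N × Fin N) ℂ :=
  fun p q => if (p.1 : ℕ) + p.2 = q.1 + q.2 ∧ (q.2 : ℕ) ≤ p.1 then
    v ^ (-((N : ℤ) - 1) * (1 + (q.1 : ℕ) + (q.2 : ℕ)) + 2 * (p.1 : ℕ) * (p.2 : ℕ)) *
      v ^ (((p.1 : ℕ) - q.2) * ((p.1 : ℕ) - q.2 - 1) / 2) *
      (brf v p.1 / (brf v q.2 * brf v ((p.1 : ℕ) - q.2))) *
      ∏ t ∈ range ((p.1 : ℕ) - q.2), br v ((N : ℤ) - (q.1 : ℕ) + t)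
    else 0

/-- The negative crossing, inverse of `crossP N v`:
`e_i ⊗ e_j ↦ ∑_n (-1)^n v^{(N-1)(1+i+j) - 2ij - n(n-1)/2}
({i+n}! / ({i}! {n}!)) ∏_{t<n} {N-j+t} e_{j-n} ⊗ e_{i+n}`. -/
noncomputable def crossN (N : ℕ) (v : ℂ) : Matrix (Fin N × Fin N) (Fin N × Fin N) ℂ :=
  fun p q => if (p.1 : ℕ) + p.2 = q.1 + q.2 ∧ (q.1 : ℕ) ≤ p.2 then
    (-1) ^ ((p.2 : ℕ) - q.1) *
      v ^ (((N : ℤ) - 1) * (1 + (q.1 : ℕ) + (q.2 : ℕ)) - 2 * (q.1 : ℕ) * (q.2 : ℕ)) /
      v ^ (((p.2 : ℕ) - q.1) * ((p.2 : ℕ) - q.1 - 1) / 2) *
      (brf v p.2 / (brf v q.1 * brf v ((p.2 : ℕ) - q.1))) *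
      ∏ t ∈ range ((p.2 : ℕ) - q.1), br v ((N : ℤ) - (q.2 : ℕ) + t)
    else 0

/-- The coefficients of the invariant vector `∑_k kap k e_k ⊗ e_{N-1-k}` of `V_N ⊗ V_N`:
`kap k = (-1)^k v^{k(N-2-k)} {k}! {N-1-k}! / {N-1}!`. -/
noncomputable def kap (N : ℕ) (v : ℂ) (k : ℕ) : ℂ :=
  (-1) ^ k * v ^ ((k : ℤ) * ((N : ℤ) - 2 - k)) * (brf v k * brf v (N - 1 - k) / brf v (N - 1))

/-- The cup: the invariant vector of `V_N ⊗ V_N`. -/
noncomputable def cup (N : ℕ) (v : ℂ) (p : Fin N × Fin N) : ℂ :=
  if (p.1 : ℕ) + p.2 = N - 1 then kap N v p.1 else 0

/-- The cap: the invariant linear form on `V_N ⊗ V_N`. -/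
noncomputable def cap (N : ℕ) (v : ℂ) (p : Fin N × Fin N) : ℂ :=
  if (p.1 : ℕ) + p.2 = N - 1 then (kap N v p.2)⁻¹ else 0

/-! ### Tangle diagrams -/

/-- The pieces of a diagram.  Strands are counted from `0`, from left to right.  `cup i` creates the
strands `i` and `i + 1`, `cap i` closes the strands `i` and `i + 1`, `twist i σ m` is a twist region:
`m` crossings of the strands `i` and `i + 1`, all positive (`σ = true`) or all negative. -/
inductive Piece
  | cup (i : ℕ)
  | cap (i : ℕ)
  | twist (i : ℕ) (σ : Bool) (m : ℕ)

/-- The number of strands above a piece that has `n` strands below it. -/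
def Piece.strands : Piece → ℕ → Option ℕ
  | .cup i, n => if i ≤ n then some (n + 2) else none
  | .cap i, n => if i + 2 ≤ n then some (n - 2) else none
  | .twist i _ _, n => if i + 2 ≤ n then some n else none

/-- A diagram: the list of its pieces from bottom to top. -/
abbrev Diagram := List Piece

/-- `D` is the diagram of a tangle with `n` strands at the bottom and `k` strands at the top.  (The
closure of a (1,1)-tangle is a link, and every link arises in this way.) -/
def IsTangle (D : Diagram) (n k : ℕ) : Prop :=
  D.foldl (fun n P => n.bind P.strands) (some n) = some k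

/-- The operator of a piece.  A vector of `V_N ⊗ ⋯ ⊗ V_N` is given by its coefficients with respect
to the basis vectors `e_{s_0} ⊗ ⋯ ⊗ e_{s_{n-1}}`, indexed by the lists `s = [s_0, …, s_{n-1}]`. -/
noncomputable def Piece.act (N : ℕ) (v : ℂ) : Piece → (List (Fin N) → ℂ) → List (Fin N) → ℂ
  | .cup i, f => fun s => match s.drop i with
      | a :: b :: r => AlternationBoundOdd.cup N v (a, b) * f (s.take i ++ r)
      | _ => 0
  | .cap i, f => fun s =>
      ∑ p : Fin N × Fin N, AlternationBoundOdd.cap N v p * f (s.take i ++ p.1 :: p.2 :: s.drop i)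
  | .twist i σ m, f => fun s => match s.drop i with
      | a :: b :: r => ∑ p : Fin N × Fin N,
          ((if σ then crossP N v else crossN N v) ^ m) (a, b) p * f (s.take i ++ p.1 :: p.2 :: r)
      | _ => 0

/-- The operator of a diagram. -/
noncomputable def run (N : ℕ) (v : ℂ) (D : Diagram) (f : List (Fin N) → ℂ) : List (Fin N) → ℂ :=
  D.foldl (fun g P => P.act N v g) f

/-- The `N`-coloured Jones polynomial of the closure of a (1,1)-tangle (unknot `= 1`; all components
coloured `N`) at `q = v^2`, up to sign and powers of `v`: the entry of the operator of the tangle at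
the highest weight vector `e_0`. -/
noncomputable def jones (N : ℕ) (D : Diagram) (v : ℂ) : ℂ :=
  if h : 0 < N then run N v D (fun s => if s = [⟨0, h⟩] then 1 else 0) [⟨0, h⟩] else 0

/-- `v_N = exp (π i / N)`, so that `q = v_N^2 = exp (2 π i / N)`. -/
noncomputable def root (N : ℕ) : ℂ := Complex.exp (Real.pi * Complex.I / N)

/-- The Kashaev invariant, up to a factor of absolute value `1` (framing, sign). -/
noncomputable def kashaev (D : Diagram) (N : ℕ) : ℂ := jones N D (root N)

/-! ### The constants -/

/-- Lobachevsky's function `Λ(x) = -∫_0^x log |2 sin t| dt`. -/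
noncomputable def Lob (x : ℝ) : ℝ := -∫ t in (0 : ℝ)..x, Real.log |2 * Real.sin t|

/-- the volume of the regular ideal tetrahedron -/
noncomputable def v3 : ℝ := 3 * Lob (Real.pi / 3)

/-- the volume of the regular ideal octahedron -/
noncomputable def v8 : ℝ := 8 * Lob (Real.pi / 4)

/-- the bound for a twist region of `m` crossings -/
noncomputable def rate (m : ℕ) : ℝ := min (m * v8) (10 * v3)

/-! ### Marked diagrams

At a positive crossing the strand from the lower left to the upper right passes over, at a negative
crossing the strand from the lower right to the upper left. -/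

/-- The marks of the edges of a diagram: `over` may be used for edges that pass over at both ends,
`under` for edges that pass under at both ends, `free` for all edges; `bot` and `top` are for the
open strand, `bot` from its bottom end up to a crossing where it passes under, `top` from a crossing
where it passes over up to its top end. -/
inductive Mark
  | free
  | over
  | under
  | bot
  | top
  deriving DecidableEq

/-- marks for the ends of the upper strand of an ordinary crossing -/
def Mark.isO : Mark → Bool
  | .free => true
  | .over => true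
  | _ => false

/-- marks for the ends of the lower strand of an ordinary crossing -/
def Mark.isU : Mark → Bool
  | .free => true
  | .under => true
  | _ => false

/-- Ordinary crossings.  Here and below `o` and `o'` are the marks of the edges at the lower and at the
upper end of the upper strand of the crossing, `u` and `u'` at the lower and at the upper end of its
lower strand (the upper strand is the one that passes over). -/
def ordinary (o o' u u' : Mark) : Bool := o.isO && o'.isO && u.isU && u'.isU

/-- Crossings which the strand from the bottom passes over, or the strand to the top passes under; the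
two ends of the other strand have the same mark. -/
def passed (o o' u u' : Mark) : Bool :=
  (o == .bot && o' == .bot && u == u' && (u.isU || u == .top)) ||
  (u == .top && u' == .top && o == o' && o.isO)

/-- The crossing where the strand from the bottom passes under; it has the mark `bot` at one end. -/
def endB (o o' u u' : Mark) : Bool :=
  o.isO && o'.isO && ((u == .bot && u'.isU) || (u' == .bot && u.isU))

/-- The crossing where the strand to the top passes over; it has the mark `top` at one end. -/
def endT (o o' u u' : Mark) : Bool :=
  u.isU && u'.isU && ((o == .top && o'.isO) || (o' == .top && o.isO))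

/-- The number of free ends of a strand. -/
def freeEnds (m m' : Mark) : ℕ := (if m = .free then 1 else 0) + (if m' = .free then 1 else 0)

/-- The contribution of a crossing where the open strand ends, if the other strand has `f` free ends;
`t` says whether the other end of the open strand at this crossing has the mark `over` or `under`. -/
noncomputable def endRate (f : ℕ) (t : Bool) : ℝ :=
  v3 * (if f = 2 then 2 else f + (if t then 1 else 0))

/-- The contribution of a crossing. -/
noncomputable def contribution (o o' u u' : Mark) : ℝ :=
  if ordinary o o' u u' then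
    (if freeEnds o o' + freeEnds u u' = 4 then v8 else
      v3 * (1 + (if freeEnds o o' = 0 then 0 else 1) + (if freeEnds u u' = 0 then 0 else 1)))
  else if passed o o' u u' then 0
  else if endB o o' u u' then endRate (freeEnds o o') (u == .under || u' == .under)
  else endRate (freeEnds u u') (o == .over || o' == .over)

/-- A piece of a marked diagram: `cup i e` creates the strands `i` and `i + 1` with the mark `e`;
`cap i` closes the strands `i` and `i + 1`, which must have the same mark; `cross i σ o o' u u'` is a
crossing of the strands `i` and `i + 1`, positive for `σ = true`, with these marks of its ends;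
`twist i σ m` is a twist region of two strands with the mark `free`. -/
inductive MPiece
  | cup (i : ℕ) (e : Mark)
  | cap (i : ℕ)
  | cross (i : ℕ) (σ : Bool) (o o' u u' : Mark)
  | twist (i : ℕ) (σ : Bool) (m : ℕ)

/-- A marked diagram: the list of its pieces from bottom to top. -/
abbrev MDiagram := List MPiece

/-- The marks of the strands above a piece, from left to right, given the marks of the strands below;
`none` if the piece does not fit. -/
def MPiece.step : MPiece → List Mark → Option (List Mark)
  | .cup i e, ms => if i ≤ ms.length then some (ms.take i ++ e :: e :: ms.drop i) else none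
  | .cap i, ms => match ms.drop i with
      | a :: b :: r => if a = b then some (ms.take i ++ r) else none
      | _ => none
  | .cross i σ o o' u u', ms => match ms.drop i with
      | a :: b :: r =>
          if (ordinary o o' u u' || passed o o' u u' || endB o o' u u' || endT o o' u u') = true then
            (if σ then (if a = o ∧ b = u then some (ms.take i ++ u' :: o' :: r) else none)
            else (if a = u ∧ b = o then some (ms.take i ++ o' :: u' :: r) else none)) else none
      | _ => none
  | .twist i _ _, ms => match ms.drop i with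
      | a :: b :: _ => if a = .free ∧ b = .free then some ms else none
      | _ => none

/-- The contribution of a piece. -/
noncomputable def MPiece.contribution : MPiece → ℝ
  | .cross _ _ o o' u u' => AlternationBoundOdd.contribution o o' u u'
  | .twist _ _ m => rate m
  | _ => 0

/-- The piece without its marks. -/
def MPiece.forget : MPiece → Piece
  | .cup i _ => .cup i
  | .cap i => .cap i
  | .cross i σ _ _ _ _ => .twist i σ 1
  | .twist i σ m => .twist i σ m

/-- The diagram without the marks. -/
def forget (D : MDiagram) : Diagram := D.map MPiece.forget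

/-- The number of the crossings `endB` and `endT`. -/
def MPiece.special : MPiece → ℕ
  | .cross _ _ o o' u u' => if endB o o' u u' || endT o o' u u' then 1 else 0
  | _ => 0

/-- `D` is a marked diagram of a (1,1)-tangle; the open strand has the mark `e` at the bottom and the
mark `d` at the top.  There is one crossing `endB` if `e = bot`, one crossing `endT` if `d = top`, and
there are no others. -/
def IsMarked (D : MDiagram) (e d : Mark) : Prop :=
  D.foldl (fun o P => o.bind P.step) (some [e]) = some [d] ∧ e ≠ .top ∧ d ≠ .bot ∧
    (D.map MPiece.special).sum = (if e = .bot then 1 else 0) + (if d = .top then 1 else 0)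

/-! ### Translation to the library -/

/-- the pieces of the library -/
def tr : Piece → Pool.Agent.W709.QAT.Piece
  | .cup i => .cup i
  | .cap i => .cap i
  | .twist i σ m => .twist i σ m

lemma act_eq (N : ℕ) (v : ℂ) (P : Piece) (f : List (Fin N) → ℂ) :
    P.act N v f = (tr P).act N v f := by
  cases P with
  | cup i =>
    funext s
    simp only [Piece.act, tr, Pool.Agent.W709.QAT.Piece.act]
    rcases s.drop i with _ | ⟨a, _ | ⟨b, r⟩⟩ <;> rfl
  | cap i => rfl
  | twist i σ m =>
    funext s
    simp only [Piece.act, tr, Pool.Agent.W709.QAT.Piece.act]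
    rcases s.drop i with _ | ⟨a, _ | ⟨b, r⟩⟩ <;> rfl

lemma run_eq (N : ℕ) (v : ℂ) (D : Diagram) (f : List (Fin N) → ℂ) :
    run N v D f = Pool.Agent.W709.QAT.run N v (D.map tr) f := by
  unfold run Pool.Agent.W709.QAT.run
  induction D generalizing f with
  | nil => rfl
  | cons P D ih =>
    rw [List.map_cons, List.foldl_cons, List.foldl_cons, act_eq, ih]

lemma jones_eq (N : ℕ) (D : Diagram) :
    jones N D = Pool.Agent.W709.QAT.jones N (D.map tr) := by
  funext v
  unfold jones Pool.Agent.W709.QAT.jones
  split_ifs with h
  · rw [run_eq]
  · rfl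

lemma kashaev_eq (N : ℕ) (D : Diagram) : kashaev D N =
    Pool.Agent.W709.QAT.jones N (D.map tr) (Pool.Agent.W715.VC.rt N) := by
  unfold kashaev
  rw [jones_eq]
  rfl

lemma lob_eq (x : ℝ) : Lob x = GapVol.lob x := rfl

lemma rate_eq (m : ℕ) : rate m = Pool.Agent.W709.QAT.rate m := by
  unfold rate Pool.Agent.W709.QAT.rate v3 v8
  rw [lob_eq, lob_eq]
  congr 1
  ring

lemma v3_eq : v3 = 2 * GapVol.lob (Real.pi / 6) := by
  unfold v3
  rw [lob_eq, GapVol.lob_dup]

lemma v8_eq : v8 = 8 * GapVol.lob (Real.pi / 4) := rfl

/-- the marks of the library -/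
def tm : Mark → Pool.Agent.K7.H9.VC.Mrk.Mark
  | .free => .free
  | .over => .over
  | .under => .under
  | .bot => .bot
  | .top => .top

lemma tm_inj {a b : Mark} : tm a = tm b ↔ a = b := by
  cases a <;> cases b <;> simp [tm]

lemma tm_beq (a b : Mark) : (tm a == tm b) = (a == b) := by
  cases a <;> cases b <;> rfl

lemma isO_eq (a : Mark) : (tm a).isO = a.isO := by cases a <;> rfl

lemma isU_eq (a : Mark) : (tm a).isU = a.isU := by cases a <;> rfl

lemma ord_eq (o o' u u' : Mark) :
    Pool.Agent.K7.H9.VC.Mrk.normal (tm o) (tm o') (tm u) (tm u') = ordinary o o' u u' := by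
  unfold Pool.Agent.K7.H9.VC.Mrk.normal ordinary
  rw [isO_eq, isO_eq, isU_eq, isU_eq]

lemma pass_eq (o o' u u' : Mark) :
    Pool.Agent.K7.H9.VC.Mrk.pass (tm o) (tm o') (tm u) (tm u') = passed o o' u u' := by
  unfold Pool.Agent.K7.H9.VC.Mrk.pass passed
  rw [isO_eq, isU_eq, tm_beq u u', tm_beq o o', show Pool.Agent.K7.H9.VC.Mrk.Mark.bot = tm .bot from rfl,
    show Pool.Agent.K7.H9.VC.Mrk.Mark.top = tm .top from rfl, tm_beq, tm_beq, tm_beq, tm_beq]

lemma endB_eq (o o' u u' : Mark) :
    Pool.Agent.K7.H9.VC.Mrk.endB (tm o) (tm o') (tm u) (tm u') = endB o o' u u' := by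
  unfold Pool.Agent.K7.H9.VC.Mrk.endB endB
  rw [isO_eq, isO_eq, isU_eq, isU_eq, show Pool.Agent.K7.H9.VC.Mrk.Mark.bot = tm .bot from rfl,
    tm_beq, tm_beq]

lemma endT_eq (o o' u u' : Mark) :
    Pool.Agent.K7.H9.VC.Mrk.endT (tm o) (tm o') (tm u) (tm u') = endT o o' u u' := by
  unfold Pool.Agent.K7.H9.VC.Mrk.endT endT
  rw [isO_eq, isO_eq, isU_eq, isU_eq, show Pool.Agent.K7.H9.VC.Mrk.Mark.top = tm .top from rfl,
    tm_beq, tm_beq]

lemma fr_eq (m m' : Mark) : Pool.Agent.K7.H9.VC.Mrk.fr (tm m) (tm m') = freeEnds m m' := by
  cases m <;> cases m' <;> rfl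

lemma er_eq (f : ℕ) (t : Bool) : Pool.Agent.K7.H9.VC.Mrk.er f t = endRate f t := by
  unfold Pool.Agent.K7.H9.VC.Mrk.er endRate
  rw [v3_eq]

lemma con_eq (o o' u u' : Mark) :
    Pool.Agent.K7.H9.VC.Mrk.krate (tm o) (tm o') (tm u) (tm u') = contribution o o' u u' := by
  unfold Pool.Agent.K7.H9.VC.Mrk.krate contribution
  rw [ord_eq, pass_eq, endB_eq, fr_eq, fr_eq, er_eq, er_eq, v3_eq, v8_eq,
    show Pool.Agent.K7.H9.VC.Mrk.Mark.under = tm .under from rfl,
    show Pool.Agent.K7.H9.VC.Mrk.Mark.over = tm .over from rfl, tm_beq, tm_beq, tm_beq, tm_beq]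

/-- the marked pieces of the library -/
def mtr : MPiece → Pool.Agent.K7.H9.VC.Mrk.MR
  | .cup i e => .cup i (tm e)
  | .cap i => .cap i
  | .cross i σ o o' u u' => .cross i σ (tm o) (tm o') (tm u) (tm u')
  | .twist i σ m => .twist i σ m

lemma step_eq (P : MPiece) (ms : List Mark) :
    (mtr P).step (ms.map tm) = (P.step ms).map (List.map tm) := by
  cases P with
  | cup i e =>
    simp only [mtr, MPiece.step, Pool.Agent.K7.H9.VC.Mrk.MR.step, List.length_map]
    split_ifs
    · simp [List.map_take, List.map_drop]
    · rfl
  | cap i =>
    simp only [mtr, MPiece.step, Pool.Agent.K7.H9.VC.Mrk.MR.step]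
    rw [← List.map_drop, ← List.map_take]
    rcases ms.drop i with _ | ⟨a, _ | ⟨b, r⟩⟩
    · rfl
    · rfl
    · simp only [List.map_cons, tm_inj]
      split_ifs
      · simp
      · rfl
  | cross i σ o o' u u' =>
    simp only [mtr, MPiece.step, Pool.Agent.K7.H9.VC.Mrk.MR.step]
    rw [← List.map_drop, ← List.map_take]
    rcases ms.drop i with _ | ⟨a, _ | ⟨b, r⟩⟩
    · rfl
    · rfl
    · simp only [List.map_cons, tm_inj, Pool.Agent.K7.H9.VC.Mrk.okk, ord_eq, pass_eq, endB_eq,
        endT_eq]
      split_ifs <;> simp
  | twist i σ m =>
    simp only [mtr, MPiece.step, Pool.Agent.K7.H9.VC.Mrk.MR.step]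
    rw [← List.map_drop]
    rcases ms.drop i with _ | ⟨a, _ | ⟨b, r⟩⟩
    · rfl
    · rfl
    · simp only [List.map_cons, show Pool.Agent.K7.H9.VC.Mrk.Mark.free = tm .free from rfl, tm_inj]
      split_ifs <;> rfl

lemma fold_eq (D : MDiagram) : ∀ o : Option (List Mark),
    (D.map mtr).foldl (fun o P => o.bind P.step) (o.map (List.map tm)) =
      (D.foldl (fun o P => o.bind P.step) o).map (List.map tm) := by
  induction D with
  | nil => intro o; rfl
  | cons P D ih =>
    intro o
    rw [List.map_cons, List.foldl_cons, List.foldl_cons, ← ih]
    congr 1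
    cases o with
    | none => rfl
    | some m => exact step_eq P m

lemma forget_eq (D : MDiagram) :
    (forget D).map tr = (D.map mtr).map Pool.Agent.K7.H9.VC.Mrk.MR.piece := by
  unfold forget
  rw [List.map_map, List.map_map]
  apply List.map_congr_left
  intro P _
  cases P <;> rfl

lemma sum_eq (D : MDiagram) :
    ((D.map mtr).map Pool.Agent.K7.H9.VC.Mrk.MR.rt).sum = (D.map MPiece.contribution).sum := by
  rw [List.map_map]
  congr 1
  apply List.map_congr_left
  intro P _
  cases P with
  | cup i e => rfl
  | cap i => rfl
  | cross i σ o o' u u' => exact con_eq o o' u u'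
  | twist i σ m => exact (rate_eq m).symm

lemma sps_eq (D : MDiagram) :
    Pool.Agent.K7.H9.VC.Mrk.sps (D.map mtr) = (D.map MPiece.special).sum := by
  unfold Pool.Agent.K7.H9.VC.Mrk.sps
  rw [List.map_map]
  congr 1
  apply List.map_congr_left
  intro P _
  cases P with
  | cup i e => rfl
  | cap i => rfl
  | cross i σ o o' u u' =>
    simp only [Function.comp, mtr, Pool.Agent.K7.H9.VC.Mrk.MR.sp, MPiece.special,
      Pool.Agent.K7.H9.VC.Mrk.sp, endB_eq, endT_eq]
  | twist i σ m => rfl

lemma kashaev_forget (D : MDiagram) (N : ℕ) : kashaev (forget D) N =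
    Pool.Agent.W709.QAT.jones N ((D.map mtr).map Pool.Agent.K7.H9.VC.Mrk.MR.piece)
      (Pool.Agent.W715.VC.rt N) := by
  rw [kashaev_eq, forget_eq]

/-! ### Checks of the definitions (not part of the result)

For `N = 2` the skein relation; the moves that generate the isotopies of diagrams of unoriented
links, up to a factor `c` with `|c| = 1` for `|v| = 1`. -/

/-- For `N = 2` the crossings satisfy the skein relation of the Jones polynomial. -/
theorem skein (v : ℂ) (hv : v ≠ 0) (h1 : br v 1 ≠ 0) :
    v ^ 2 • crossP 2 v - (v ^ 2)⁻¹ • crossN 2 v =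
      (v - v⁻¹) • (1 : Matrix (Fin 2 × Fin 2) (Fin 2 × Fin 2) ℂ) :=
  Pool.Agent.H550R3.Jones.taskSanSkein v hv h1

/-- Zigzag. -/
theorem zigzag (N : ℕ) (v : ℂ) (hv : v ≠ 0) (h : ∀ k : ℕ, 0 < k → k < N → br v k ≠ 0)
    (f : List (Fin N) → ℂ) (i : ℕ) (s : List (Fin N)) (hi : i < s.length) :
    run N v [.cup (i + 1), .cap i] f s = f s ∧ run N v [.cup i, .cap (i + 1)] f s = f s := by
  rw [run_eq, run_eq]
  exact Pool.Agent.W591.QAT.zz N v hv h f i s hi

/-- The first Reidemeister move (four cases). -/
theorem reidemeister_one (N : ℕ) (v : ℂ) (hv : v ≠ 0) (h : ∀ k : ℕ, 0 < k → k < N → br v k ≠ 0)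
    (hN : 0 < N) (f : List (Fin N) → ℂ) (i : ℕ) (s : List (Fin N)) :
    (i + 2 ≤ s.length →
      run N v [.cup i, .twist i true 1] f s =
        (-1) ^ (N - 1) * v ^ (-((N : ℤ) ^ 2 - 1)) * run N v [.cup i] f s ∧
      run N v [.cup i, .twist i false 1] f s =
        (-1) ^ (N - 1) * v ^ ((N : ℤ) ^ 2 - 1) * run N v [.cup i] f s) ∧
    (i ≤ s.length →
      run N v [.twist i true 1, .cap i] f s =
        (-1) ^ (N - 1) * v ^ (-((N : ℤ) ^ 2 - 1)) * run N v [.cap i] f s ∧
      run N v [.twist i false 1, .cap i] f s =
        (-1) ^ (N - 1) * v ^ ((N : ℤ) ^ 2 - 1) * run N v [.cap i] f s) := by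
  simp only [run_eq]
  exact ⟨fun hi => ⟨Pool.Agent.W193.QAT.r1 N v hv h hN f i s hi,
      Pool.Agent.W193.QAT.r1n N v hv h hN f i s hi⟩,
    fun hi => ⟨Pool.Agent.W193.QAT.r1c N v hv h hN f i s hi,
      Pool.Agent.W193.QAT.r1cn N v hv h hN f i s hi⟩⟩

/-- The second and the third Reidemeister move. -/
theorem reidemeister_two_three (N : ℕ) (v : ℂ) (hv : v ≠ 0)
    (h : ∀ k : ℕ, 0 < k → k < N → br v k ≠ 0) (f : List (Fin N) → ℂ) (i : ℕ) (s : List (Fin N)) :
    (i + 2 ≤ s.length →
      run N v [.twist i true 1, .twist i false 1] f s = f s ∧
      run N v [.twist i false 1, .twist i true 1] f s = f s) ∧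
    (i + 3 ≤ s.length →
      run N v [.twist i true 1, .twist (i + 1) true 1, .twist i true 1] f s =
      run N v [.twist (i + 1) true 1, .twist i true 1, .twist (i + 1) true 1] f s) := by
  rw [run_eq, run_eq, run_eq, run_eq]
  exact Pool.Agent.W591.QAT.reid N v hv h f i s

/-- A strand slides over a cup and over a cap. -/
theorem slide (N : ℕ) (v : ℂ) (hv : v ≠ 0) (h : ∀ k : ℕ, 0 < k → k < N → br v k ≠ 0)
    (f : List (Fin N) → ℂ) (i : ℕ) (s : List (Fin N)) (σ : Bool) :
    (i + 3 ≤ s.length →
      run N v [.cup (i + 1), .twist i σ 1, .twist (i + 1) σ 1] f s =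
        v ^ (if σ then -((N : ℤ) ^ 2 - 1) else (N : ℤ) ^ 2 - 1) * run N v [.cup i] f s ∧
      run N v [.cup i, .twist (i + 1) σ 1, .twist i σ 1] f s =
        v ^ (if σ then -((N : ℤ) ^ 2 - 1) else (N : ℤ) ^ 2 - 1) * run N v [.cup (i + 1)] f s) ∧
    (i + 1 ≤ s.length →
      run N v [.twist i σ 1, .twist (i + 1) σ 1, .cap i] f s =
        v ^ (if σ then -((N : ℤ) ^ 2 - 1) else (N : ℤ) ^ 2 - 1) * run N v [.cap (i + 1)] f s ∧
      run N v [.twist (i + 1) σ 1, .twist i σ 1, .cap (i + 1)] f s =
        v ^ (if σ then -((N : ℤ) ^ 2 - 1) else (N : ℤ) ^ 2 - 1) * run N v [.cap i] f s) := by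
  have e : Pool.Agent.W683.QAT.ct N v σ =
      v ^ (if σ then -((N : ℤ) ^ 2 - 1) else (N : ℤ) ^ 2 - 1) := by
    unfold Pool.Agent.W683.QAT.ct Pool.Agent.W683.QAT.cst
    cases σ
    · simp only [Bool.false_eq_true, if_false]
      rw [zpow_neg, inv_inv]
    · simp only [if_true]
  rw [← e]
  simp only [run_eq]
  exact Pool.Agent.W683.QAT.slide_all N v hv h f i s σ

/-- A twist region is a stack of crossings. -/
theorem twist_succ (N : ℕ) (v : ℂ) (f : List (Fin N) → ℂ) (i m : ℕ) (σ : Bool)
    (s : List (Fin N)) (hi : i + 2 ≤ s.length) :
    run N v [.twist i σ m, .twist i σ 1] f s = run N v [.twist i σ (m + 1)] f s := by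
  simp only [run_eq]
  exact Pool.Agent.W613.QAT.pow N v f i m σ s hi

/-- A marked diagram is the diagram of a (1,1)-tangle. -/
theorem IsMarked.isTangle {D : MDiagram} {e d : Mark} (h : IsMarked D e d) :
    IsTangle (forget D) 1 1 := by
  have key : ∀ (D : MDiagram) (ms ms' : List Mark),
      D.foldl (fun o P => o.bind P.step) (some ms) = some ms' →
      (forget D).foldl (fun n P => n.bind P.strands) (some ms.length) = some ms'.length := by
    have hn : ∀ D : MDiagram, D.foldl (fun o P => o.bind P.step) (none : Option (List Mark)) = none := by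
      intro D
      induction D with
      | nil => rfl
      | cons P D ih => exact ih
    intro D
    induction D with
    | nil =>
      intro ms ms' h
      have : ms = ms' := by simpa using h
      rw [this]
      rfl
    | cons P D ih =>
      intro ms ms' h
      have h' : D.foldl (fun o P => o.bind P.step) (P.step ms) = some ms' := h
      rcases hP : P.step ms with _ | m1
      · rw [hP, hn] at h'
        exact absurd h' (by simp)
      · rw [hP] at h'
        have h2 := ih m1 ms' h'
        have e1 : forget (P :: D) = P.forget :: forget D := rfl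
        rw [e1, List.foldl_cons]
        have h3 : (some ms.length).bind P.forget.strands = some m1.length := by
          have hl := List.length_drop (i := P.casesOn (fun i _ => i) (fun i => i)
            (fun i _ _ _ _ _ => i) (fun i _ _ => i)) (l := ms)
          cases P with
          | cup i e =>
            simp only [MPiece.step] at hP
            split_ifs at hP with hi
            rw [Option.some.injEq] at hP
            subst hP
            simp only [MPiece.forget, Option.bind_some, Piece.strands]
            rw [if_pos hi, List.length_append, List.length_cons, List.length_cons,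
              List.length_take, List.length_drop]
            congr 1
            omega
          | cap i =>
            rcases hd : ms.drop i with _ | ⟨a, _ | ⟨b, r⟩⟩
            · simp [MPiece.step, hd] at hP
            · simp [MPiece.step, hd] at hP
            · simp only [MPiece.step, hd] at hP
              split_ifs at hP with hab
              rw [Option.some.injEq] at hP
              subst hP
              simp only [hd, List.length_cons] at hl
              simp only [MPiece.forget, Option.bind_some, Piece.strands]
              rw [if_pos (by omega), List.length_append, List.length_take]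
              congr 1
              omega
          | cross i σ o o' u u' =>
            rcases hd : ms.drop i with _ | ⟨a, _ | ⟨b, r⟩⟩
            · simp [MPiece.step, hd] at hP
            · simp [MPiece.step, hd] at hP
            · simp only [MPiece.step, hd] at hP
              have hlen : m1.length = (ms.take i).length + (r.length + 2) := by
                split_ifs at hP with h1 h2 h3 h4
                · rw [Option.some.injEq] at hP
                  rw [← hP]
                  simp
                · rw [Option.some.injEq] at hP
                  rw [← hP]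
                  simp
              simp only [hd, List.length_cons] at hl
              simp only [MPiece.forget, Option.bind_some, Piece.strands]
              rw [if_pos (by omega), hlen, List.length_take]
              congr 1
              omega
          | twist i σ m =>
            rcases hd : ms.drop i with _ | ⟨a, _ | ⟨b, r⟩⟩
            · simp [MPiece.step, hd] at hP
            · simp [MPiece.step, hd] at hP
            · simp only [MPiece.step, hd] at hP
              split_ifs at hP with hab
              rw [Option.some.injEq] at hP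
              subst hP
              simp only [hd, List.length_cons] at hl
              simp only [MPiece.forget, Option.bind_some, Piece.strands]
              rw [if_pos (by omega)]
        rw [h3]
        exact h2
  exact key D [e] [d] h.1

/-- Example: the closure of the 3-braid `(s_1 s_2^{-1})^3` (Borromean rings), six crossings, all edges
alternating.  Two crossings are passed, two are ends of the open strand with the contribution
`2 v_3`, and two are ordinary with the contribution `v_8`. -/
example : IsMarked [.cup 1 .free, .cup 2 .free, .cross 0 true .bot .bot .free .free,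
      .cross 1 false .free .free .bot .free, .cross 0 true .free .free .free .free,
      .cross 1 false .free .top .free .free, .cross 0 true .free .free .top .top,
      .cross 1 false .free .free .free .free, .cap 2, .cap 1] .bot .top := by
  refine ⟨by rfl, by decide, by decide, by rfl⟩

/-- Example: the closure of the 3-braid `s_1 s_2 s_1 s_2`, with some non-alternating edges. -/
example : IsMarked [.cup 1 .free, .cup 2 .free, .cross 0 true .bot .bot .free .free,
      .cross 1 true .bot .bot .free .free, .cross 0 true .free .over .free .under,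
      .cross 1 true .over .free .bot .free, .cap 2, .cap 1] .bot .under := by
  refine ⟨by rfl, by decide, by decide, by rfl⟩

/-! ### The result -/

/-- The filter of the odd integers tending to infinity. -/
def oddTop : Filter ℕ := atTop ⊓ 𝓟 {n | Odd n}

/-- **Alternating and non-alternating edges and the growth of the Kashaev invariants of all
links along the odd integers.**
(1) For every `N ≥ 1` the coloured Jones polynomial is continuous at `v_N`, so that `kashaev D N` is
its value at `q = e^(2 π i / N)` in the usual sense.
(2) For every marked diagram `D` of a link, cut open at a point, as `N → ∞` through the odd integers, the upper limit of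
`(2 π / N) log |⟨L⟩_N|` is at most the sum of the contributions of the pieces of `D`: an ordinary
crossing contributes `v_8` if its four ends are free, and otherwise `(1 + s) v_3`, where `s` is the
number of its two strands that have a free end; a crossing that is passed by the open strand
contributes `0`; a crossing where the bottom or the top part of the open strand ends contributes
`2 v_3` if both ends of the other strand are free, and otherwise `v_3` times the number of these free
ends plus `v_3` if the open strand is marked at its other end; a twist region of `m` crossings of free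
strands contributes `min (m v_8) (10 v_3)`.  One may mark every non-alternating edge `over` or
`under`. -/
theorem result :
    (∀ (D : Diagram) (N : ℕ), 1 ≤ N → ContinuousAt (jones N D) (root N)) ∧
    (∀ (D : MDiagram) (e d : Mark), IsMarked D e d → ∀ ε : ℝ, 0 < ε → ∀ᶠ N : ℕ in oddTop,
      2 * Real.pi * (Real.log ‖kashaev (forget D) N‖ / N) ≤
        (D.map MPiece.contribution).sum + ε) := by
  have hodd : oddTop ≤ atTop := inf_le_left
  refine ⟨?_, ?_⟩
  · intro D N hN
    rw [jones_eq]
    exact Pool.Agent.W613.QAT.cont (D.map tr) N hN
  · intro D e d hD ε hε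
    obtain ⟨h1, he, hd, hsp⟩ := hD
    have h2 := fold_eq D (some [e])
    rw [h1] at h2
    have hs : Pool.Agent.K7.H9.VC.Mrk.msteps (D.map mtr) [tm e] = some [tm d] := h2
    have hsp2 : (Pool.Agent.K7.H9.VC.Mrk.sps (D.map mtr) : ℤ) = (tm e).v - (tm d).v := by
      rw [sps_eq, hsp]
      cases e <;> cases d <;> first
        | (exact absurd rfl he)
        | (exact absurd rfl hd)
        | (simp [tm, Pool.Agent.K7.H9.VC.Mrk.Mark.v])
    have h := Pool.Agent.K7.H9.VC.Mrk.mark_growth (D.map mtr) hs hsp2 hε
    filter_upwards [hodd h] with N hN
    rw [kashaev_forget, ← sum_eq]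
    exact hN

end Pool.Agent.Results.MP_b30479_gt.AlternationBoundOdd
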