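import Pool.Agent.K7.H9.VC.Lim
import Pool.Agent.W613.QAT.Cont
import Pool.Agent.W193.QAT.R1
import Pool.Agent.W591.QAT.Reid
import Pool.Agent.W683.QAT.Slide
import Pool.Agent.H550R3.Jones.SanSkein699


/-!
# Bridges and the growth of the Kashaev invariants of all links along the odd integers

Let a link diagram be divided into `b` overpasses and `b` underpasses, and let `c` be the number of
its crossings (at each of them an overpass crosses an underpass).  Then, as `N → ∞` along the odd integers,
`limsup (2 π / N) log |⟨L⟩_N| ≤ (c + 4 b) v_3` for `c ≤ 6 b`, and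
`limsup (2 π / N) log |⟨L⟩_N| ≤ 2 π b (1 + log (c / (6 b)) + (2 / 3) √(6 b / c))` for `c > 6 b`,
where `v_3 = 3 Λ(π/3) = 1.01494…` is the volume of the regular ideal tetrahedron.  So the growth rate
is at most logarithmic in the number of crossings if the number of bridges is fixed (the general
bound `c v_8` is linear).  More generally only a part of the diagram is divided into overpasses and
underpasses, and the other part contains arbitrary twist regions.

A link diagram, cut open at one point, is a list of pieces from bottom to top: cups, caps, and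
twist regions (`m` crossings in a row of two neighbouring strands; one crossing for `m = 1`).
Everything is defined from the R-matrix of `U_q(sl_2)`, with `v = q^{1/2}` and
`{k} = v^k - v^{-k}`.  The `N`-coloured Jones polynomial is the (scalar) operator of the
(1,1)-tangle, read off at the highest weight vector.  The Kashaev invariant is its value at
`v = exp (π i / N)`, that is `q = exp (2 π i / N)`; changes of the framing and of the orientations
multiply it by a number of absolute value `1`.
-/

set_option autoImplicit false

namespace Pool.Agent.Results.MP_b30479_gt.BridgeBoundOdd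

open Finset Filter Topology

/-! ### The coloured Jones polynomial -/

/-- `{n} = v^n - v^{-n}` -/
noncomputable def br (v : ℂ) (n : ℤ) : ℂ := v ^ n - v ^ (-n)

/-- `{n}! = {1} {2} ⋯ {n}` -/
noncomputable def brf (v : ℂ) (n : ℕ) : ℂ := ∏ j ∈ range n, br v ((j : ℤ) + 1)

/-- The positive crossing: the R-matrix of `U_q(sl_2)` on `V_N ⊗ V_N`, `V_N` with basis
`e_0, …, e_{N-1}`, times the framing factor `v^{-(N^2-1)/2}`; `crossP N v p q` is the coefficient
of `e_{p.1} ⊗ e_{p.2}` in the image of `e_{q.1} ⊗ e_{q.2}`:
`e_i ⊗ e_j ↦ ∑_n v^{-(N-1)(1+i+j) + 2(i-n)(j+n) + n(n-1)/2}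
({j+n}! / ({j}! {n}!)) ∏_{t<n} {N-i+t} e_{j+n} ⊗ e_{i-n}`. -/
noncomputable def crossP (N : ℕ) (v : ℂ) : Matrix (Fin N × Fin N) (Fin N × Fin N) ℂ :=
  fun p q => if (p.1 : ℕ) + p.2 = q.1 + q.2 ∧ (q.2 : ℕ) ≤ p.1 then
    v ^ (-((N : ℤ) - 1) * (1 + (q.1 : ℕ) + (q.2 : ℕ)) + 2 * (p.1 : ℕ) * (p.2 : ℕ)) *
      v ^ (((p.1 : ℕ) - q.2) * ((p.1 : ℕ) - q.2 - 1) / 2) *
      (brf v p.1 / (brf v q.2 * brf v ((p.1 : ℕ) - q.2))) *
      ∏ t ∈ range ((p.1 : ℕ) - q.2), br v ((N : ℤ) - (q.1 : ℕ) + t)
    else 0

/-- The negative crossing, inverse of `crossP N v`: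
`e_i ⊗ e_j ↦ ∑_n (-1)^n v^{(N-1)(1+i+j) - 2ij - n(n-1)/2}
({i+n}! / ({i}! {n}!)) ∏_{t<n} {N-j+t} e_{j-n} ⊗ e_{i+n}`. -/
noncomputable def crossN (N : ℕ) (v : ℂ) : Matrix (Fin N × Fin N) (Fin N × Fin N) ℂ :=
  fun p q => if (p.1 : ℕ) + p.2 = q.1 + q.2 ∧ (q.1 : ℕ) ≤ p.2 then
    (-1) ^ ((p.2 : ℕ) - q.1) *
      v ^ (((N : ℤ) - 1) * (1 + (q.1 : ℕ) + (q.2 : ℕ)) - 2 * (q.1 : ℕ) * (q.2 : ℕ)) /
      v ^ (((p.2 : ℕ) - q.1) * ((p.2 : ℕ) - q.1 - 1) / 2) *
      (brf v p.2 / (brf v q.1 * brf v ((p.2 : ℕ) - q.1))) *
      ∏ t ∈ range ((p.2 : ℕ) - q.1), br v ((N : ℤ) - (q.2 : ℕ) + t)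
    else 0

/-- The coefficients of the invariant vector `∑_k kap k e_k ⊗ e_{N-1-k}` of `V_N ⊗ V_N`:
`kap k = (-1)^k v^{k(N-2-k)} {k}! {N-1-k}! / {N-1}!`. -/
noncomputable def kap (N : ℕ) (v : ℂ) (k : ℕ) : ℂ :=
  (-1) ^ k * v ^ ((k : ℤ) * ((N : ℤ) - 2 - k)) * (brf v k * brf v (N - 1 - k) / brf v (N - 1))

/-- The cup: the invariant vector of `V_N ⊗ V_N`. -/
noncomputable def cup (N : ℕ) (v : ℂ) (p : Fin N × Fin N) : ℂ :=
  if (p.1 : ℕ) + p.2 = N - 1 then kap N v p.1 else 0

/-- The cap: the invariant linear form on `V_N ⊗ V_N`. -/
noncomputable def cap (N : ℕ) (v : ℂ) (p : Fin N × Fin N) : ℂ :=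
  if (p.1 : ℕ) + p.2 = N - 1 then (kap N v p.2)⁻¹ else 0

/-! ### Tangle diagrams -/

/-- The pieces of a diagram.  Strands are counted from `0`, from left to right.  `cup i` creates the
strands `i` and `i + 1`, `cap i` closes the strands `i` and `i + 1`, `twist i σ m` is a twist region:
`m` crossings of the strands `i` and `i + 1`, all positive (`σ = true`) or all negative. -/
inductive Piece
  | cup (i : ℕ)
  | cap (i : ℕ)
  | twist (i : ℕ) (σ : Bool) (m : ℕ)

/-- The number of strands above a piece that has `n` strands below it. -/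
def Piece.strands : Piece → ℕ → Option ℕ
  | .cup i, n => if i ≤ n then some (n + 2) else none
  | .cap i, n => if i + 2 ≤ n then some (n - 2) else none
  | .twist i _ _, n => if i + 2 ≤ n then some n else none

/-- A diagram: the list of its pieces from bottom to top. -/
abbrev Diagram := List Piece

/-- `D` is the diagram of a tangle with `n` strands at the bottom and `k` strands at the top.  (The
closure of a (1,1)-tangle is a link, and every link arises in this way.) -/
def IsTangle (D : Diagram) (n k : ℕ) : Prop :=
  D.foldl (fun n P => n.bind P.strands) (some n) = some k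

/-- The operator of a piece.  A vector of `V_N ⊗ ⋯ ⊗ V_N` is given by its coefficients with respect
to the basis vectors `e_{s_0} ⊗ ⋯ ⊗ e_{s_{n-1}}`, indexed by the lists `s = [s_0, …, s_{n-1}]`. -/
noncomputable def Piece.act (N : ℕ) (v : ℂ) : Piece → (List (Fin N) → ℂ) → List (Fin N) → ℂ
  | .cup i, f => fun s => match s.drop i with
      | a :: b :: r => BridgeBoundOdd.cup N v (a, b) * f (s.take i ++ r)
      | _ => 0
  | .cap i, f => fun s =>
      ∑ p : Fin N × Fin N, BridgeBoundOdd.cap N v p * f (s.take i ++ p.1 :: p.2 :: s.drop i)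
  | .twist i σ m, f => fun s => match s.drop i with
      | a :: b :: r => ∑ p : Fin N × Fin N,
          ((if σ then crossP N v else crossN N v) ^ m) (a, b) p * f (s.take i ++ p.1 :: p.2 :: r)
      | _ => 0

/-- The operator of a diagram. -/
noncomputable def run (N : ℕ) (v : ℂ) (D : Diagram) (f : List (Fin N) → ℂ) : List (Fin N) → ℂ :=
  D.foldl (fun g P => P.act N v g) f

/-- The `N`-coloured Jones polynomial of the closure of a (1,1)-tangle (unknot `= 1`; all components
coloured `N`) at `q = v^2`, up to sign and powers of `v`: the entry of the operator of the tangle at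
the highest weight vector `e_0`. -/
noncomputable def jones (N : ℕ) (D : Diagram) (v : ℂ) : ℂ :=
  if h : 0 < N then run N v D (fun s => if s = [⟨0, h⟩] then 1 else 0) [⟨0, h⟩] else 0

/-- `v_N = exp (π i / N)`, so that `q = v_N^2 = exp (2 π i / N)`. -/
noncomputable def root (N : ℕ) : ℂ := Complex.exp (Real.pi * Complex.I / N)

/-- The Kashaev invariant, up to a factor of absolute value `1` (framing, sign). -/
noncomputable def kashaev (D : Diagram) (N : ℕ) : ℂ := jones N D (root N)

/-! ### The constants -/

/-- Lobachevsky's function `Λ(x) = -∫_0^x log |2 sin t| dt`. -/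
noncomputable def Lob (x : ℝ) : ℝ := -∫ t in (0 : ℝ)..x, Real.log |2 * Real.sin t|

/-- the volume of the regular ideal tetrahedron -/
noncomputable def v3 : ℝ := 3 * Lob (Real.pi / 3)

/-- the volume of the regular ideal octahedron -/
noncomputable def v8 : ℝ := 8 * Lob (Real.pi / 4)

/-- the bound for a twist region of `m` crossings -/
noncomputable def rate (m : ℕ) : ℝ := min (m * v8) (10 * v3)

/-! ### Marked diagrams

At a positive crossing the strand from the lower left to the upper right passes over, at a negative
crossing the strand from the lower right to the upper left. -/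

/-- A piece of a marked diagram.  Every strand carries a mark: `1` on an overpass, `-1` on an
underpass, `0` on the remaining parts (other integers are allowed but of no use).  `cup i e` creates
the strands `i` and `i + 1` with the mark `e`; `cap i` closes the strands `i` and `i + 1`, which must
have the same mark; `cross i σ` is a crossing of an overpass over an underpass, positive for
`σ = true`; `twist i σ m` is a twist region of two strands with the mark `0`; `turn i e` changes the
mark of the strand `i` to `e`, and the old and the new mark must differ by `1` (so a change from an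
overpass to an underpass needs two pieces `turn`). -/
inductive MPiece
  | cup (i : ℕ) (e : ℤ)
  | cap (i : ℕ)
  | cross (i : ℕ) (σ : Bool)
  | twist (i : ℕ) (σ : Bool) (m : ℕ)
  | turn (i : ℕ) (e : ℤ)

/-- A marked diagram: the list of its pieces from bottom to top. -/
abbrev MDiagram := List MPiece

/-- The marks of the strands above a piece, from left to right, given the marks of the strands below;
`none` if the piece does not fit. -/
def MPiece.step : MPiece → List ℤ → Option (List ℤ)
  | .cup i e, ms => if i ≤ ms.length then some (ms.take i ++ e :: e :: ms.drop i) else none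
  | .cap i, ms => match ms.drop i with
      | a :: b :: r => if a = b then some (ms.take i ++ r) else none
      | _ => none
  | .cross i σ, ms => match ms.drop i with
      | a :: b :: r => if (σ = true ∧ a = 1 ∧ b = -1) ∨ (σ = false ∧ a = -1 ∧ b = 1) then
          some (ms.take i ++ b :: a :: r) else none
      | _ => none
  | .twist i _ _, ms => match ms.drop i with
      | a :: b :: _ => if a = 0 ∧ b = 0 then some ms else none
      | _ => none
  | .turn i e, ms => match ms.drop i with
      | a :: r => if (e - a).natAbs = 1 then some (ms.take i ++ e :: r) else none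
      | _ => none

/-- `D` is a marked diagram of a (1,1)-tangle; the open strand has the mark `e` at the bottom and the
mark `d` at the top. -/
def IsMarked (D : MDiagram) (e d : ℤ) : Prop :=
  D.foldl (fun o P => o.bind P.step) (some [e]) = some [d]

/-- The piece without its marks. -/
def MPiece.forget : MPiece → Diagram
  | .cup i _ => [.cup i]
  | .cap i => [.cap i]
  | .cross i σ => [.twist i σ 1]
  | .twist i σ m => [.twist i σ m]
  | .turn _ _ => []

/-- The diagram without the marks. -/
def forget (D : MDiagram) : Diagram := D.flatMap MPiece.forget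

/-- The number of crossings of overpasses with underpasses. -/
def crossings : MDiagram → ℕ
  | [] => 0
  | .cross _ _ :: D => crossings D + 1
  | _ :: D => crossings D

/-- The number of pieces `turn`. -/
def turns : MDiagram → ℕ
  | [] => 0
  | .turn _ _ :: D => turns D + 1
  | _ :: D => turns D

/-- The number of changes of the marks in the closed diagram, that is the number of ends of
overpasses and of underpasses.  It is `4 b` if the closed diagram consists of `b` overpasses and `b`
underpasses. -/
def ends (D : MDiagram) (e d : ℤ) : ℕ := turns D + (d - e).natAbs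

/-- The sum of the numbers `rate m` over the twist regions of strands with the mark `0`. -/
noncomputable def free : MDiagram → ℝ
  | [] => 0
  | .twist _ _ m :: D => rate m + free D
  | _ :: D => free D

/-- The bound for `c` crossings, `b` overpasses and `b` underpasses. -/
noncomputable def bridgeBound (c b : ℝ) : ℝ :=
  if c ≤ 6 * b then (c + 4 * b) * v3
  else 2 * Real.pi * b * (1 + Real.log (c / (6 * b)) + 2 / 3 * Real.sqrt (6 * b / c))

/-! ### Translation to the library -/

/-- the pieces of the library -/
def tr : Piece → Pool.Agent.W709.QAT.Piece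
  | .cup i => .cup i
  | .cap i => .cap i
  | .twist i σ m => .twist i σ m

lemma act_eq (N : ℕ) (v : ℂ) (P : Piece) (f : List (Fin N) → ℂ) :
    P.act N v f = (tr P).act N v f := by
  cases P with
  | cup i =>
    funext s
    simp only [Piece.act, tr, Pool.Agent.W709.QAT.Piece.act]
    rcases s.drop i with _ | ⟨a, _ | ⟨b, r⟩⟩ <;> rfl
  | cap i => rfl
  | twist i σ m =>
    funext s
    simp only [Piece.act, tr, Pool.Agent.W709.QAT.Piece.act]
    rcases s.drop i with _ | ⟨a, _ | ⟨b, r⟩⟩ <;> rfl

lemma run_eq (N : ℕ) (v : ℂ) (D : Diagram) (f : List (Fin N) → ℂ) :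
    run N v D f = Pool.Agent.W709.QAT.run N v (D.map tr) f := by
  unfold run Pool.Agent.W709.QAT.run
  induction D generalizing f with
  | nil => rfl
  | cons P D ih =>
    rw [List.map_cons, List.foldl_cons, List.foldl_cons, act_eq, ih]

lemma jones_eq (N : ℕ) (D : Diagram) :
    jones N D = Pool.Agent.W709.QAT.jones N (D.map tr) := by
  funext v
  unfold jones Pool.Agent.W709.QAT.jones
  split_ifs with h
  · rw [run_eq]
  · rfl

lemma kashaev_eq (N : ℕ) (D : Diagram) : kashaev D N =
    Pool.Agent.W709.QAT.jones N (D.map tr) (Pool.Agent.W715.VC.rt N) := by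
  unfold kashaev
  rw [jones_eq]
  rfl

lemma lob_eq (x : ℝ) : Lob x = GapVol.lob x := rfl

lemma rate_eq (m : ℕ) : rate m = Pool.Agent.W709.QAT.rate m := by
  unfold rate Pool.Agent.W709.QAT.rate v3 v8
  rw [lob_eq, lob_eq]
  congr 1
  ring


/-- the marked pieces of the library -/
def mtr : MPiece → Pool.Agent.K7.H9.VC.MP
  | .cup i e => .cup i e
  | .cap i => .cap i
  | .cross i σ => .cross i σ
  | .twist i σ m => .twist i σ m
  | .turn i e => .turn i e

lemma step_eq (P : MPiece) (ms : List ℤ) : (mtr P).step ms = P.step ms := by
  cases P with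
  | cup i e => rfl
  | cap i =>
    simp only [mtr, MPiece.step, Pool.Agent.K7.H9.VC.MP.step]
    rcases ms.drop i with _ | ⟨a, _ | ⟨b, r⟩⟩ <;> rfl
  | cross i σ =>
    simp only [mtr, MPiece.step, Pool.Agent.K7.H9.VC.MP.step]
    rcases ms.drop i with _ | ⟨a, _ | ⟨b, r⟩⟩ <;> rfl
  | twist i σ m =>
    simp only [mtr, MPiece.step, Pool.Agent.K7.H9.VC.MP.step]
    rcases ms.drop i with _ | ⟨a, _ | ⟨b, r⟩⟩ <;> rfl
  | turn i e =>
    simp only [mtr, MPiece.step, Pool.Agent.K7.H9.VC.MP.step]
    rcases ms.drop i with _ | ⟨a, r⟩ <;> rfl

lemma marked_eq (D : MDiagram) (e d : ℤ) :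
    IsMarked D e d ↔ Pool.Agent.K7.H9.VC.steps (D.map mtr) [e] = some [d] := by
  unfold IsMarked Pool.Agent.K7.H9.VC.steps
  have h : ∀ o : Option (List ℤ), D.foldl (fun o P => o.bind P.step) o =
      (D.map mtr).foldl (fun o P => o.bind P.step) o := by
    induction D with
    | nil => intro o; rfl
    | cons P D ih =>
      intro o
      rw [List.map_cons, List.foldl_cons, List.foldl_cons, ← ih]
      congr 1
      cases o with
      | none => rfl
      | some m => exact (step_eq P m).symm
  rw [h]

lemma forget_eq (D : MDiagram) :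
    (forget D).map tr = (D.map mtr).flatMap Pool.Agent.K7.H9.VC.MP.piece := by
  unfold forget
  induction D with
  | nil => rfl
  | cons P D ih =>
    rw [List.flatMap_cons, List.map_append, ih, List.map_cons, List.flatMap_cons]
    congr 1
    cases P <;> rfl

lemma crossings_eq (D : MDiagram) : crossings D = Pool.Agent.K7.H9.VC.ncr (D.map mtr) := by
  induction D with
  | nil => rfl
  | cons P D ih =>
    cases P <;> simp only [crossings, List.map_cons, mtr, Pool.Agent.K7.H9.VC.ncr, ih]

lemma turns_eq (D : MDiagram) : turns D = Pool.Agent.K7.H9.VC.ntu (D.map mtr) := by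
  induction D with
  | nil => rfl
  | cons P D ih =>
    cases P <;> simp only [turns, List.map_cons, mtr, Pool.Agent.K7.H9.VC.ntu, ih]

lemma free_eq (D : MDiagram) :
    free D = ((Pool.Agent.K7.H9.VC.tws (D.map mtr)).map Pool.Agent.W709.QAT.rate).sum := by
  induction D with
  | nil => rfl
  | cons P D ih =>
    cases P with
    | cup i e => exact ih
    | cap i => exact ih
    | cross i σ => exact ih
    | twist i σ m =>
      simp only [free, List.map_cons, mtr, Pool.Agent.K7.H9.VC.tws, List.sum_cons, ih, rate_eq]
    | turn i e => exact ih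

lemma v3_eq : v3 = 2 * GapVol.lob (Real.pi / 6) := by
  unfold v3
  rw [lob_eq, GapVol.lob_dup]

lemma bound_eq (c b : ℝ) : bridgeBound c b = Pool.Agent.K7.H9.VC.bnd c (2 * b) := by
  unfold bridgeBound Pool.Agent.K7.H9.VC.bnd
  have e1 : 3 * (2 * b) = 6 * b := by ring
  rw [e1, v3_eq]
  split_ifs <;> ring

lemma kashaev_forget (D : MDiagram) (N : ℕ) : kashaev (forget D) N =
    Pool.Agent.W709.QAT.jones N ((D.map mtr).flatMap Pool.Agent.K7.H9.VC.MP.piece)
      (Pool.Agent.W715.VC.rt N) := by
  rw [kashaev_eq, forget_eq]

/-! ### Checks of the definitions (not part of the result)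

For `N = 2` the skein relation; the moves that generate the isotopies of diagrams of unoriented
links, up to a factor `c` with `|c| = 1` for `|v| = 1`. -/

/-- For `N = 2` the crossings satisfy the skein relation of the Jones polynomial. -/
theorem skein (v : ℂ) (hv : v ≠ 0) (h1 : br v 1 ≠ 0) :
    v ^ 2 • crossP 2 v - (v ^ 2)⁻¹ • crossN 2 v =
      (v - v⁻¹) • (1 : Matrix (Fin 2 × Fin 2) (Fin 2 × Fin 2) ℂ) :=
  Pool.Agent.H550R3.Jones.taskSanSkein v hv h1

/-- Zigzag. -/
theorem zigzag (N : ℕ) (v : ℂ) (hv : v ≠ 0) (h : ∀ k : ℕ, 0 < k → k < N → br v k ≠ 0)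
    (f : List (Fin N) → ℂ) (i : ℕ) (s : List (Fin N)) (hi : i < s.length) :
    run N v [.cup (i + 1), .cap i] f s = f s ∧ run N v [.cup i, .cap (i + 1)] f s = f s := by
  rw [run_eq, run_eq]
  exact Pool.Agent.W591.QAT.zz N v hv h f i s hi

/-- The first Reidemeister move (four cases). -/
theorem reidemeister_one (N : ℕ) (v : ℂ) (hv : v ≠ 0) (h : ∀ k : ℕ, 0 < k → k < N → br v k ≠ 0)
    (hN : 0 < N) (f : List (Fin N) → ℂ) (i : ℕ) (s : List (Fin N)) :
    (i + 2 ≤ s.length →
      run N v [.cup i, .twist i true 1] f s =
        (-1) ^ (N - 1) * v ^ (-((N : ℤ) ^ 2 - 1)) * run N v [.cup i] f s ∧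
      run N v [.cup i, .twist i false 1] f s =
        (-1) ^ (N - 1) * v ^ ((N : ℤ) ^ 2 - 1) * run N v [.cup i] f s) ∧
    (i ≤ s.length →
      run N v [.twist i true 1, .cap i] f s =
        (-1) ^ (N - 1) * v ^ (-((N : ℤ) ^ 2 - 1)) * run N v [.cap i] f s ∧
      run N v [.twist i false 1, .cap i] f s =
        (-1) ^ (N - 1) * v ^ ((N : ℤ) ^ 2 - 1) * run N v [.cap i] f s) := by
  simp only [run_eq]
  exact ⟨fun hi => ⟨Pool.Agent.W193.QAT.r1 N v hv h hN f i s hi,
      Pool.Agent.W193.QAT.r1n N v hv h hN f i s hi⟩,
    fun hi => ⟨Pool.Agent.W193.QAT.r1c N v hv h hN f i s hi,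
      Pool.Agent.W193.QAT.r1cn N v hv h hN f i s hi⟩⟩

/-- The second and the third Reidemeister move. -/
theorem reidemeister_two_three (N : ℕ) (v : ℂ) (hv : v ≠ 0)
    (h : ∀ k : ℕ, 0 < k → k < N → br v k ≠ 0) (f : List (Fin N) → ℂ) (i : ℕ) (s : List (Fin N)) :
    (i + 2 ≤ s.length →
      run N v [.twist i true 1, .twist i false 1] f s = f s ∧
      run N v [.twist i false 1, .twist i true 1] f s = f s) ∧
    (i + 3 ≤ s.length →
      run N v [.twist i true 1, .twist (i + 1) true 1, .twist i true 1] f s =
      run N v [.twist (i + 1) true 1, .twist i true 1, .twist (i + 1) true 1] f s) := by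
  rw [run_eq, run_eq, run_eq, run_eq]
  exact Pool.Agent.W591.QAT.reid N v hv h f i s

/-- A strand slides over a cup and over a cap. -/
theorem slide (N : ℕ) (v : ℂ) (hv : v ≠ 0) (h : ∀ k : ℕ, 0 < k → k < N → br v k ≠ 0)
    (f : List (Fin N) → ℂ) (i : ℕ) (s : List (Fin N)) (σ : Bool) :
    (i + 3 ≤ s.length →
      run N v [.cup (i + 1), .twist i σ 1, .twist (i + 1) σ 1] f s =
        v ^ (if σ then -((N : ℤ) ^ 2 - 1) else (N : ℤ) ^ 2 - 1) * run N v [.cup i] f s ∧
      run N v [.cup i, .twist (i + 1) σ 1, .twist i σ 1] f s =
        v ^ (if σ then -((N : ℤ) ^ 2 - 1) else (N : ℤ) ^ 2 - 1) * run N v [.cup (i + 1)] f s) ∧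
    (i + 1 ≤ s.length →
      run N v [.twist i σ 1, .twist (i + 1) σ 1, .cap i] f s =
        v ^ (if σ then -((N : ℤ) ^ 2 - 1) else (N : ℤ) ^ 2 - 1) * run N v [.cap (i + 1)] f s ∧
      run N v [.twist (i + 1) σ 1, .twist i σ 1, .cap (i + 1)] f s =
        v ^ (if σ then -((N : ℤ) ^ 2 - 1) else (N : ℤ) ^ 2 - 1) * run N v [.cap i] f s) := by
  have e : Pool.Agent.W683.QAT.ct N v σ =
      v ^ (if σ then -((N : ℤ) ^ 2 - 1) else (N : ℤ) ^ 2 - 1) := by
    unfold Pool.Agent.W683.QAT.ct Pool.Agent.W683.QAT.cst
    cases σ
    · simp only [Bool.false_eq_true, if_false]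
      rw [zpow_neg, inv_inv]
    · simp only [if_true]
  rw [← e]
  simp only [run_eq]
  exact Pool.Agent.W683.QAT.slide_all N v hv h f i s σ

/-- A twist region is a stack of crossings. -/
theorem twist_succ (N : ℕ) (v : ℂ) (f : List (Fin N) → ℂ) (i m : ℕ) (σ : Bool)
    (s : List (Fin N)) (hi : i + 2 ≤ s.length) :
    run N v [.twist i σ m, .twist i σ 1] f s = run N v [.twist i σ (m + 1)] f s := by
  simp only [run_eq]
  exact Pool.Agent.W613.QAT.pow N v f i m σ s hi

/-- A marked diagram is the diagram of a (1,1)-tangle. -/
theorem IsMarked.isTangle {D : MDiagram} {e d : ℤ} (h : IsMarked D e d) :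
    IsTangle (forget D) 1 1 := by
  have key : ∀ (D : MDiagram) (ms ms' : List ℤ),
      D.foldl (fun o P => o.bind P.step) (some ms) = some ms' →
      (forget D).foldl (fun n P => n.bind P.strands) (some ms.length) = some ms'.length := by
    have hn : ∀ D : MDiagram, D.foldl (fun o P => o.bind P.step) (none : Option (List ℤ)) = none := by
      intro D
      induction D with
      | nil => rfl
      | cons P D ih => exact ih
    intro D
    induction D with
    | nil =>
      intro ms ms' h
      have : ms = ms' := by simpa using h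
      rw [this]
      rfl
    | cons P D ih =>
      intro ms ms' h
      have h' : D.foldl (fun o P => o.bind P.step) (P.step ms) = some ms' := h
      rcases hP : P.step ms with _ | m1
      · rw [hP, hn] at h'
        exact absurd h' (by simp)
      · rw [hP] at h'
        have h2 := ih m1 ms' h'
        have e1 : forget (P :: D) = P.forget ++ forget D := rfl
        rw [e1, List.foldl_append]
        have h3 : P.forget.foldl (fun n P => n.bind P.strands) (some ms.length) =
            some m1.length := by
          have hl := List.length_drop (i := P.casesOn (fun i _ => i) (fun i => i) (fun i _ => i)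
            (fun i _ _ => i) (fun i _ => i)) (l := ms)
          cases P with
          | cup i e =>
            simp only [MPiece.step] at hP
            split_ifs at hP with hi
            rw [Option.some.injEq] at hP
            subst hP
            simp only [MPiece.forget, List.foldl_cons, List.foldl_nil, Option.bind_some,
              Piece.strands]
            rw [if_pos hi, List.length_append, List.length_cons, List.length_cons,
              List.length_take, List.length_drop]
            congr 1
            omega
          | cap i =>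
            rcases hd : ms.drop i with _ | ⟨a, _ | ⟨b, r⟩⟩
            · simp [MPiece.step, hd] at hP
            · simp [MPiece.step, hd] at hP
            · simp only [MPiece.step, hd] at hP
              split_ifs at hP with hab
              rw [Option.some.injEq] at hP
              subst hP
              simp only [hd, List.length_cons] at hl
              simp only [MPiece.forget, List.foldl_cons, List.foldl_nil, Option.bind_some,
                Piece.strands]
              rw [if_pos (by omega), List.length_append, List.length_take]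
              congr 1
              omega
          | cross i σ =>
            rcases hd : ms.drop i with _ | ⟨a, _ | ⟨b, r⟩⟩
            · simp [MPiece.step, hd] at hP
            · simp [MPiece.step, hd] at hP
            · simp only [MPiece.step, hd] at hP
              split_ifs at hP with hab
              rw [Option.some.injEq] at hP
              subst hP
              simp only [hd, List.length_cons] at hl
              simp only [MPiece.forget, List.foldl_cons, List.foldl_nil, Option.bind_some,
                Piece.strands]
              rw [if_pos (by omega), List.length_append, List.length_cons, List.length_cons,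
                List.length_take]
              congr 1
              omega
          | twist i σ m =>
            rcases hd : ms.drop i with _ | ⟨a, _ | ⟨b, r⟩⟩
            · simp [MPiece.step, hd] at hP
            · simp [MPiece.step, hd] at hP
            · simp only [MPiece.step, hd] at hP
              split_ifs at hP with hab
              rw [Option.some.injEq] at hP
              subst hP
              simp only [hd, List.length_cons] at hl
              simp only [MPiece.forget, List.foldl_cons, List.foldl_nil, Option.bind_some,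
                Piece.strands]
              rw [if_pos (by omega)]
          | turn i e =>
            rcases hd : ms.drop i with _ | ⟨a, r⟩
            · simp [MPiece.step, hd] at hP
            · simp only [MPiece.step, hd] at hP
              split_ifs at hP with hab
              rw [Option.some.injEq] at hP
              subst hP
              simp only [hd, List.length_cons] at hl
              simp only [MPiece.forget, List.foldl_nil]
              rw [List.length_append, List.length_cons, List.length_take]
              congr 1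
              omega
        rw [h3]
        exact h2
  exact key D [e] [d] h

/-- Example: the trefoil, with three crossings, three overpasses and three underpasses. -/
example : IsMarked [.cup 1 (-1), .cross 0 true, .turn 0 0, .turn 0 1, .turn 1 0, .turn 1 (-1),
      .cross 0 true, .turn 0 0, .turn 0 1, .turn 1 0, .turn 1 (-1), .cross 0 true, .turn 1 0,
      .turn 1 (-1), .cap 1] 1 (-1) ∧
    crossings [.cup 1 (-1), .cross 0 true, .turn 0 0, .turn 0 1, .turn 1 0, .turn 1 (-1),
      .cross 0 true, .turn 0 0, .turn 0 1, .turn 1 0, .turn 1 (-1), .cross 0 true, .turn 1 0,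
      .turn 1 (-1), .cap 1] = 3 ∧
    ends [.cup 1 (-1), .cross 0 true, .turn 0 0, .turn 0 1, .turn 1 0, .turn 1 (-1),
      .cross 0 true, .turn 0 0, .turn 0 1, .turn 1 0, .turn 1 (-1), .cross 0 true, .turn 1 0,
      .turn 1 (-1), .cap 1] 1 (-1) = 4 * 3 := by
  refine ⟨by rfl, by rfl, by rfl⟩

/-! ### The result -/

/-- The filter of the odd integers tending to infinity. -/
def oddTop : Filter ℕ := atTop ⊓ 𝓟 {n | Odd n}

/-- **Bridges and the growth of the Kashaev invariants of all links along the odd integers.**
(1) For every `N ≥ 1` the coloured Jones polynomial is continuous at `v_N`, so that `kashaev D N` is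
its value at `q = e^(2 π i / N)` in the usual sense.
(2) Let a link diagram, cut open at a point, be marked; let `c` be the number of its crossings of
overpasses with underpasses, and `h` the number of changes of the marks in the closed diagram.  Then for
every `l ≥ 0`, as `N → ∞` through the odd integers,
`limsup (2 π / N) log |⟨L⟩_N| ≤ 2 c α + h (2 β + π l / 2) + F`, where `α` and `β` are the maxima of
`Λ(t) - l t` and `Λ(t) - (l / 2) t` for `0 ≤ t ≤ π`, and `F` is the sum of the numbers
`rate m = min (m v_8) (10 v_3)` over the twist regions of unmarked strands.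
(3) Explicitly, with `b = h / 4`: the upper limit is at most `(c + 4 b) v_3 + F` if `c ≤ 6 b`, and
`2 π b (1 + log (c / (6 b)) + (2 / 3) √(6 b / c)) + F` if `c > 6 b`.  If the diagram consists of
overpasses and underpasses then `b` is the number of overpasses and `F = 0`. -/
theorem result :
    (∀ (D : Diagram) (N : ℕ), 1 ≤ N → ContinuousAt (jones N D) (root N)) ∧
    (∀ (D : MDiagram) (e d : ℤ), IsMarked D e d → ∀ l α β : ℝ, 0 ≤ l →
      (∀ t : ℝ, 0 ≤ t → t ≤ Real.pi → Lob t - l * t ≤ α) →
      (∀ t : ℝ, 0 ≤ t → t ≤ Real.pi → Lob t - l / 2 * t ≤ β) →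
      ∀ ε : ℝ, 0 < ε → ∀ᶠ N : ℕ in oddTop,
        2 * Real.pi * (Real.log ‖kashaev (forget D) N‖ / N) ≤
          2 * crossings D * α + ends D e d * (2 * β + Real.pi * l / 2) + free D + ε) ∧
    (∀ (D : MDiagram) (e d : ℤ), IsMarked D e d → ∀ b : ℝ, (ends D e d : ℝ) = 4 * b →
      ∀ ε : ℝ, 0 < ε → ∀ᶠ N : ℕ in oddTop,
        2 * Real.pi * (Real.log ‖kashaev (forget D) N‖ / N) ≤
          bridgeBound (crossings D) b + free D + ε) := by
  have hodd : oddTop ≤ atTop := inf_le_left
  refine ⟨?_, ?_, ?_⟩
  · intro D N hN
    rw [jones_eq]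
    exact Pool.Agent.W613.QAT.cont (D.map tr) N hN
  · intro D e d hD l α β hl hα hβ ε hε
    rw [marked_eq] at hD
    have h := Pool.Agent.K7.H9.VC.growth (D.map mtr) hD hα hβ hl hε
    filter_upwards [hodd h] with N hN
    rw [kashaev_forget, crossings_eq, free_eq]
    refine hN.trans (le_of_eq ?_)
    unfold ends
    rw [turns_eq]
    push_cast
    ring
  · intro D e d hD b hb ε hε
    rw [marked_eq] at hD
    have h := Pool.Agent.K7.H9.VC.growth_bnd (D.map mtr) hD hε
    filter_upwards [hodd h] with N hN
    rw [kashaev_forget, crossings_eq, free_eq, bound_eq]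
    refine hN.trans (le_of_eq ?_)
    have e1 : ((Pool.Agent.K7.H9.VC.ntu (D.map mtr) : ℝ) + ((d - e).natAbs : ℝ)) / 2 = 2 * b := by
      unfold ends at hb
      rw [turns_eq] at hb
      push_cast at hb
      linarith
    rw [e1]
    ring

end Pool.Agent.Results.MP_b30479_gt.BridgeBoundOdd
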