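import Pool.Agent.K7.H32.FT.Main
import Pool.Agent.W613.QAT.Cont
import Pool.Agent.W193.QAT.R1
import Pool.Agent.W591.QAT.Reid
import Pool.Agent.W683.QAT.Slide
import Pool.Agent.H550R3.Jones.SanSkein699

/-!
# Full twists on `n` strands and the growth of the Kashaev invariants of all links, odd `N`

Let a link diagram consist of `c` crossings and of full twists, to arbitrary powers, on `n_1`, `n_2`,
… parallel strands.  Then, as `N → ∞` along the odd integers,
`limsup (2 π / N) log |⟨L⟩_N| ≤ c v_8 + ∑_j κ (n_j)`, `κ (n) = n (π log (4 n² + 4) + 6 v_3)`,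
where `v_3 = 3 Λ(π/3) = 1.01494…` and `v_8 = 8 Λ(π/4) = 3.66386…` are the volumes of the regular ideal
tetrahedron and octahedron.  The bound does not depend on the numbers of the full twists: if `L_m` is
obtained from a link `L` by `m` full twists on `n` parallel strands, then the growth rates of all the
`L_m` have a common bound.  (The volume of the complement of `L_m` is less than the volume of the
complement of `L` with a crossing circle around the `n` strands, by a theorem of Thurston.)

A link diagram, cut open at one point, is a list of pieces from bottom to top: cups, caps and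
crossings.  Everything is defined from the R-matrix of `U_q(sl_2)`, with `v = q^{1/2}` and
`{k} = v^k - v^{-k}`.  The `N`-coloured Jones polynomial is the (scalar) operator of the
(1,1)-tangle, read off at the highest weight vector.  The Kashaev invariant is its value at
`v = exp (π i / N)`, that is `q = exp (2 π i / N)`; changes of the framing and of the orientations
multiply it by a number of absolute value `1`.

Outline.  At a generic `v` the `m`-th power of the full twist on `V_N^{⊗n}` is a polynomial in the
Casimir operator `C`: `∑_y λ_y^m ∏_{y' ≠ y} (C - z_{y'}) / (z_y - z_{y'})`, where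
`z_y - z_{y'} = {y' - y} {n (N-1) + 1 - y - y'}`.  (For real `v > 1` the crossings are self-adjoint
for a positive form, and on vectors killed by `E` the eigenvalue of the full twist is found from two
extreme components; the general case follows by the identity theorem.)  At the root of unity the
denominators vanish, but at the points with distance `N^{-4}` from it their product is at least
`exp (- 3 n N v_3 / π - o (N))`; `C - z_{y'}` has norm at most `4 n² + 4 + o (1)`, and the invariant at the
root of unity is bounded by its maximum on the circle with this radius.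
-/

set_option autoImplicit false

namespace Pool.Agent.Results.MP_b30479_gt.FullTwistsOdd

open Finset Filter Topology

/-! ### The coloured Jones polynomial -/

/-- `{n} = v^n - v^{-n}` -/
noncomputable def br (v : ℂ) (n : ℤ) : ℂ := v ^ n - v ^ (-n)

/-- `{n}! = {1} {2} ⋯ {n}` -/
noncomputable def brf (v : ℂ) (n : ℕ) : ℂ := ∏ j ∈ range n, br v ((j : ℤ) + 1)

/-- The positive crossing: the R-matrix of `U_q(sl_2)` on `V_N ⊗ V_N`, `V_N` with basis
`e_0, …, e_{N-1}`, times the framing factor `v^{-(N^2-1)/2}`; `crossP N v p q` is the coefficient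
of `e_{p.1} ⊗ e_{p.2}` in the image of `e_{q.1} ⊗ e_{q.2}`:
`e_i ⊗ e_j ↦ ∑_n v^{-(N-1)(1+i+j) + 2(i-n)(j+n) + n(n-1)/2}
({j+n}! / ({j}! {n}!)) ∏_{t<n} {N-i+t} e_{j+n} ⊗ e_{i-n}`. -/
noncomputable def crossP (N : ℕ) (v : ℂ) : Matrix (Fin N × Fin N) (Fin N × Fin N) ℂ :=
  fun p q => if (p.1 : ℕ) + p.2 = q.1 + q.2 ∧ (q.2 : ℕ) ≤ p.1 then
    v ^ (-((N : ℤ) - 1) * (1 + (q.1 : ℕ) + (q.2 : ℕ)) + 2 * (p.1 : ℕ) * (p.2 : ℕ)) *
      v ^ (((p.1 : ℕ) - q.2) * ((p.1 : ℕ) - q.2 - 1) / 2) *
      (brf v p.1 / (brf v q.2 * brf v ((p.1 : ℕ) - q.2))) *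
      ∏ t ∈ range ((p.1 : ℕ) - q.2), br v ((N : ℤ) - (q.1 : ℕ) + t)
    else 0

/-- The negative crossing, inverse of `crossP N v`:
`e_i ⊗ e_j ↦ ∑_n (-1)^n v^{(N-1)(1+i+j) - 2ij - n(n-1)/2}
({i+n}! / ({i}! {n}!)) ∏_{t<n} {N-j+t} e_{j-n} ⊗ e_{i+n}`. -/
noncomputable def crossN (N : ℕ) (v : ℂ) : Matrix (Fin N × Fin N) (Fin N × Fin N) ℂ :=
  fun p q => if (p.1 : ℕ) + p.2 = q.1 + q.2 ∧ (q.1 : ℕ) ≤ p.2 then
    (-1) ^ ((p.2 : ℕ) - q.1) *
      v ^ (((N : ℤ) - 1) * (1 + (q.1 : ℕ) + (q.2 : ℕ)) - 2 * (q.1 : ℕ) * (q.2 : ℕ)) /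
      v ^ (((p.2 : ℕ) - q.1) * ((p.2 : ℕ) - q.1 - 1) / 2) *
      (brf v p.2 / (brf v q.1 * brf v ((p.2 : ℕ) - q.1))) *
      ∏ t ∈ range ((p.2 : ℕ) - q.1), br v ((N : ℤ) - (q.2 : ℕ) + t)
    else 0

/-- The coefficients of the invariant vector `∑_k kap k e_k ⊗ e_{N-1-k}` of `V_N ⊗ V_N`:
`kap k = (-1)^k v^{k(N-2-k)} {k}! {N-1-k}! / {N-1}!`. -/
noncomputable def kap (N : ℕ) (v : ℂ) (k : ℕ) : ℂ :=
  (-1) ^ k * v ^ ((k : ℤ) * ((N : ℤ) - 2 - k)) * (brf v k * brf v (N - 1 - k) / brf v (N - 1))

/-- The cup: the invariant vector of `V_N ⊗ V_N`. -/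
noncomputable def cup (N : ℕ) (v : ℂ) (p : Fin N × Fin N) : ℂ :=
  if (p.1 : ℕ) + p.2 = N - 1 then kap N v p.1 else 0

/-- The cap: the invariant linear form on `V_N ⊗ V_N`. -/
noncomputable def cap (N : ℕ) (v : ℂ) (p : Fin N × Fin N) : ℂ :=
  if (p.1 : ℕ) + p.2 = N - 1 then (kap N v p.2)⁻¹ else 0

/-! ### Tangle diagrams -/

/-- The pieces of a diagram.  Strands are counted from `0`, from left to right.  `cup i` creates the
strands `i` and `i + 1`, `cap i` closes the strands `i` and `i + 1`, `cross i σ` is a crossing of the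
strands `i` and `i + 1`, positive (`σ = true`) or negative. -/
inductive Piece
  | cup (i : ℕ)
  | cap (i : ℕ)
  | cross (i : ℕ) (σ : Bool)

/-- The number of strands above a piece that has `n` strands below it. -/
def Piece.strands : Piece → ℕ → Option ℕ
  | .cup i, n => if i ≤ n then some (n + 2) else none
  | .cap i, n => if i + 2 ≤ n then some (n - 2) else none
  | .cross i _, n => if i + 2 ≤ n then some n else none

/-- A diagram: the list of its pieces from bottom to top. -/
abbrev Diagram := List Piece

/-- `D` is the diagram of a tangle with `n` strands at the bottom and `k` strands at the top.  (The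
closure of a (1,1)-tangle is a link, and every link arises in this way.) -/
def IsTangle (D : Diagram) (n k : ℕ) : Prop :=
  D.foldl (fun n P => n.bind P.strands) (some n) = some k

/-- The operator of a piece.  A vector of `V_N ⊗ ⋯ ⊗ V_N` is given by its coefficients with respect
to the basis vectors `e_{s_0} ⊗ ⋯ ⊗ e_{s_{n-1}}`, indexed by the lists `s = [s_0, …, s_{n-1}]`. -/
noncomputable def Piece.act (N : ℕ) (v : ℂ) : Piece → (List (Fin N) → ℂ) → List (Fin N) → ℂ
  | .cup i, f => fun s => match s.drop i with
      | a :: b :: r => FullTwistsOdd.cup N v (a, b) * f (s.take i ++ r)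
      | _ => 0
  | .cap i, f => fun s =>
      ∑ p : Fin N × Fin N, FullTwistsOdd.cap N v p * f (s.take i ++ p.1 :: p.2 :: s.drop i)
  | .cross i σ, f => fun s => match s.drop i with
      | a :: b :: r => ∑ p : Fin N × Fin N,
          (if σ then crossP N v else crossN N v) (a, b) p * f (s.take i ++ p.1 :: p.2 :: r)
      | _ => 0

/-- The operator of a diagram. -/
noncomputable def run (N : ℕ) (v : ℂ) (D : Diagram) (f : List (Fin N) → ℂ) : List (Fin N) → ℂ :=
  D.foldl (fun g P => P.act N v g) f

/-- The `N`-coloured Jones polynomial of the closure of a (1,1)-tangle (unknot `= 1`; all components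
coloured `N`) at `q = v^2`, up to sign and powers of `v`: the entry of the operator of the tangle at
the highest weight vector `e_0`. -/
noncomputable def jones (N : ℕ) (D : Diagram) (v : ℂ) : ℂ :=
  if h : 0 < N then run N v D (fun s => if s = [⟨0, h⟩] then 1 else 0) [⟨0, h⟩] else 0

/-- `v_N = exp (π i / N)`, so that `q = v_N^2 = exp (2 π i / N)`. -/
noncomputable def root (N : ℕ) : ℂ := Complex.exp (Real.pi * Complex.I / N)

/-- The Kashaev invariant, up to a factor of absolute value `1` (framing, sign). -/
noncomputable def kashaev (D : Diagram) (N : ℕ) : ℂ := jones N D (root N)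

/-! ### The constants -/

/-- Lobachevsky's function `Λ(x) = -∫_0^x log |2 sin t| dt`. -/
noncomputable def Lob (x : ℝ) : ℝ := -∫ t in (0 : ℝ)..x, Real.log |2 * Real.sin t|

/-- the volume of the regular ideal tetrahedron -/
noncomputable def v3 : ℝ := 3 * Lob (Real.pi / 3)

/-- the volume of the regular ideal octahedron -/
noncomputable def v8 : ℝ := 8 * Lob (Real.pi / 4)

/-! ### Full twists -/

/-- The full twist on the `n` strands `i, …, i + n - 1`, all crossings positive or all negative: the
strand `i` crosses the other strands and becomes the last one, the other strands make a full twist,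
and then the strand goes back to the first place.  Any two of the strands cross twice. -/
def fullTwist (i : ℕ) : ℕ → Bool → Diagram
  | 0, _ => []
  | n + 1, σ => (List.range n).map (fun j => .cross (i + j) σ) ++ fullTwist i n σ ++
      (List.range n).reverse.map fun j => .cross (i + j) σ

/-- The pieces of a diagram with full twists; `full i n σ m` is the `m`-th power of the full twist on
the `n` strands `i, …, i + n - 1`. -/
inductive TPiece
  | cup (i : ℕ)
  | cap (i : ℕ)
  | cross (i : ℕ) (σ : Bool)
  | full (i n : ℕ) (σ : Bool) (m : ℕ)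

/-- The diagram of a piece. -/
def TPiece.diagram : TPiece → Diagram
  | .cup i => [.cup i]
  | .cap i => [.cap i]
  | .cross i σ => [.cross i σ]
  | .full i n σ m => (List.replicate m (fullTwist i n σ)).flatten

/-- The diagram of a list of pieces. -/
def expand (D : List TPiece) : Diagram := D.flatMap TPiece.diagram

/-- The number of crossings outside of the full twists. -/
def crossings : List TPiece → ℕ
  | [] => 0
  | .cross _ _ :: D => crossings D + 1
  | _ :: D => crossings D

/-- The bound for a power of the full twist on `n` strands. -/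
noncomputable def kappa (n : ℕ) : ℝ := n * (Real.pi * Real.log (4 * (n : ℝ) ^ 2 + 4) + 6 * v3)

/-- The sum of the numbers `kappa n` over the full twists; the exponents do not matter. -/
noncomputable def twists : List TPiece → ℝ
  | [] => 0
  | .full _ n _ _ :: D => kappa n + twists D
  | _ :: D => twists D

/-! ### Translation to the library -/

/-- the pieces of the library -/
def tr : Piece → Pool.Agent.W709.QAT.Piece
  | .cup i => .cup i
  | .cap i => .cap i
  | .cross i σ => .twist i σ 1

lemma act_eq (N : ℕ) (v : ℂ) (P : Piece) (f : List (Fin N) → ℂ) :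
    P.act N v f = (tr P).act N v f := by
  cases P with
  | cup i =>
    funext s
    simp only [Piece.act, tr, Pool.Agent.W709.QAT.Piece.act]
    rcases s.drop i with _ | ⟨a, _ | ⟨b, r⟩⟩ <;> rfl
  | cap i => rfl
  | cross i σ =>
    funext s
    simp only [Piece.act, tr, Pool.Agent.W709.QAT.Piece.act, pow_one]
    rcases s.drop i with _ | ⟨a, _ | ⟨b, r⟩⟩ <;> rfl

lemma run_eq (N : ℕ) (v : ℂ) (D : Diagram) (f : List (Fin N) → ℂ) :
    run N v D f = Pool.Agent.W709.QAT.run N v (D.map tr) f := by
  unfold run Pool.Agent.W709.QAT.run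
  induction D generalizing f with
  | nil => rfl
  | cons P D ih =>
    rw [List.map_cons, List.foldl_cons, List.foldl_cons, act_eq, ih]

lemma jones_eq (N : ℕ) (D : Diagram) :
    jones N D = Pool.Agent.W709.QAT.jones N (D.map tr) := by
  funext v
  unfold jones Pool.Agent.W709.QAT.jones
  split_ifs with h
  · rw [run_eq]
  · rfl

lemma kashaev_eq (N : ℕ) (D : Diagram) : kashaev D N =
    Pool.Agent.W709.QAT.jones N (D.map tr) (Pool.Agent.W715.VC.rt N) := by
  unfold kashaev
  rw [jones_eq]
  rfl

/-- the pieces with full twists of the library -/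
def ttr : TPiece → Pool.Agent.K7.H32.FT.TP
  | .cup i => .cup i
  | .cap i => .cap i
  | .cross i σ => .cross i σ
  | .full i n σ m => .full i n σ m

lemma fullTwist_eq (i n : ℕ) (σ : Bool) :
    (fullTwist i n σ).map tr = Pool.Agent.K7.H32.FT.ftd i n σ := by
  induction n with
  | zero => rfl
  | succ n ih =>
    unfold Pool.Agent.K7.H32.FT.ftd at ih ⊢
    rw [fullTwist, List.map_append, List.map_append, ih, Pool.Agent.K7.H32.FT.ftw,
      List.map_append, List.map_append, List.map_map, List.map_map]
    rfl

lemma diagram_eq (P : TPiece) : P.diagram.map tr = (ttr P).exp := by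
  cases P with
  | cup i => rfl
  | cap i => rfl
  | cross i σ => rfl
  | full i n σ m =>
    simp only [TPiece.diagram, ttr, Pool.Agent.K7.H32.FT.TP.exp]
    rw [← fullTwist_eq, List.map_flatten, List.map_replicate]

lemma expand_eq (D : List TPiece) : (expand D).map tr = Pool.Agent.K7.H32.FT.xp (D.map ttr) := by
  induction D with
  | nil => rfl
  | cons P D ih =>
    have e1 : expand (P :: D) = P.diagram ++ expand D := rfl
    have e2 : Pool.Agent.K7.H32.FT.xp ((P :: D).map ttr) =
        (ttr P).exp ++ Pool.Agent.K7.H32.FT.xp (D.map ttr) := rfl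
    rw [e1, e2, List.map_append, diagram_eq, ih]

lemma lob_eq (x : ℝ) : Lob x = GapVol.lob x := rfl

lemma rate_eq (D : List TPiece) :
    2 * Real.pi * ((D.map ttr).map Pool.Agent.K7.H32.FT.TP.rt).sum =
      crossings D * v8 + twists D := by
  have hpi := Real.pi_ne_zero
  induction D with
  | nil => simp [crossings, twists]
  | cons P D ih =>
    rw [List.map_cons, List.map_cons, List.sum_cons, mul_add, ih]
    cases P with
    | cup i => simp [ttr, Pool.Agent.K7.H32.FT.TP.rt, crossings, twists]
    | cap i => simp [ttr, Pool.Agent.K7.H32.FT.TP.rt, crossings, twists]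
    | cross i σ =>
      simp only [ttr, Pool.Agent.K7.H32.FT.TP.rt, crossings, twists, v8, lob_eq]
      push_cast
      field_simp
      ring
    | full i n σ m =>
      simp only [ttr, Pool.Agent.K7.H32.FT.TP.rt, Pool.Agent.K7.H32.FT.kp, crossings, twists, kappa,
        v3, lob_eq]
      have h := GapVol.lob_dup
      rw [h]
      field_simp
      ring

/-! ### Checks of the definitions (not part of the result)

For `N = 2` the skein relation; the moves that generate the isotopies of diagrams of unoriented
links, up to a factor `c` with `|c| = 1` for `|v| = 1`. -/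

/-- For `N = 2` the crossings satisfy the skein relation of the Jones polynomial. -/
theorem skein (v : ℂ) (hv : v ≠ 0) (h1 : br v 1 ≠ 0) :
    v ^ 2 • crossP 2 v - (v ^ 2)⁻¹ • crossN 2 v =
      (v - v⁻¹) • (1 : Matrix (Fin 2 × Fin 2) (Fin 2 × Fin 2) ℂ) :=
  Pool.Agent.H550R3.Jones.taskSanSkein v hv h1

/-- Zigzag. -/
theorem zigzag (N : ℕ) (v : ℂ) (hv : v ≠ 0) (h : ∀ k : ℕ, 0 < k → k < N → br v k ≠ 0)
    (f : List (Fin N) → ℂ) (i : ℕ) (s : List (Fin N)) (hi : i < s.length) :
    run N v [.cup (i + 1), .cap i] f s = f s ∧ run N v [.cup i, .cap (i + 1)] f s = f s := by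
  rw [run_eq, run_eq]
  exact Pool.Agent.W591.QAT.zz N v hv h f i s hi

/-- The first Reidemeister move (four cases). -/
theorem reidemeister_one (N : ℕ) (v : ℂ) (hv : v ≠ 0) (h : ∀ k : ℕ, 0 < k → k < N → br v k ≠ 0)
    (hN : 0 < N) (f : List (Fin N) → ℂ) (i : ℕ) (s : List (Fin N)) :
    (i + 2 ≤ s.length →
      run N v [.cup i, .cross i true] f s =
        (-1) ^ (N - 1) * v ^ (-((N : ℤ) ^ 2 - 1)) * run N v [.cup i] f s ∧
      run N v [.cup i, .cross i false] f s =
        (-1) ^ (N - 1) * v ^ ((N : ℤ) ^ 2 - 1) * run N v [.cup i] f s) ∧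
    (i ≤ s.length →
      run N v [.cross i true, .cap i] f s =
        (-1) ^ (N - 1) * v ^ (-((N : ℤ) ^ 2 - 1)) * run N v [.cap i] f s ∧
      run N v [.cross i false, .cap i] f s =
        (-1) ^ (N - 1) * v ^ ((N : ℤ) ^ 2 - 1) * run N v [.cap i] f s) := by
  simp only [run_eq]
  exact ⟨fun hi => ⟨Pool.Agent.W193.QAT.r1 N v hv h hN f i s hi,
      Pool.Agent.W193.QAT.r1n N v hv h hN f i s hi⟩,
    fun hi => ⟨Pool.Agent.W193.QAT.r1c N v hv h hN f i s hi,
      Pool.Agent.W193.QAT.r1cn N v hv h hN f i s hi⟩⟩

/-- The second and the third Reidemeister move. -/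
theorem reidemeister_two_three (N : ℕ) (v : ℂ) (hv : v ≠ 0)
    (h : ∀ k : ℕ, 0 < k → k < N → br v k ≠ 0) (f : List (Fin N) → ℂ) (i : ℕ) (s : List (Fin N)) :
    (i + 2 ≤ s.length →
      run N v [.cross i true, .cross i false] f s = f s ∧
      run N v [.cross i false, .cross i true] f s = f s) ∧
    (i + 3 ≤ s.length →
      run N v [.cross i true, .cross (i + 1) true, .cross i true] f s =
      run N v [.cross (i + 1) true, .cross i true, .cross (i + 1) true] f s) := by
  rw [run_eq, run_eq, run_eq, run_eq]
  exact Pool.Agent.W591.QAT.reid N v hv h f i s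

/-- A strand slides over a cup and over a cap. -/
theorem slide (N : ℕ) (v : ℂ) (hv : v ≠ 0) (h : ∀ k : ℕ, 0 < k → k < N → br v k ≠ 0)
    (f : List (Fin N) → ℂ) (i : ℕ) (s : List (Fin N)) (σ : Bool) :
    (i + 3 ≤ s.length →
      run N v [.cup (i + 1), .cross i σ, .cross (i + 1) σ] f s =
        v ^ (if σ then -((N : ℤ) ^ 2 - 1) else (N : ℤ) ^ 2 - 1) * run N v [.cup i] f s ∧
      run N v [.cup i, .cross (i + 1) σ, .cross i σ] f s =
        v ^ (if σ then -((N : ℤ) ^ 2 - 1) else (N : ℤ) ^ 2 - 1) * run N v [.cup (i + 1)] f s) ∧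
    (i + 1 ≤ s.length →
      run N v [.cross i σ, .cross (i + 1) σ, .cap i] f s =
        v ^ (if σ then -((N : ℤ) ^ 2 - 1) else (N : ℤ) ^ 2 - 1) * run N v [.cap (i + 1)] f s ∧
      run N v [.cross (i + 1) σ, .cross i σ, .cap (i + 1)] f s =
        v ^ (if σ then -((N : ℤ) ^ 2 - 1) else (N : ℤ) ^ 2 - 1) * run N v [.cap i] f s) := by
  have e : Pool.Agent.W683.QAT.ct N v σ =
      v ^ (if σ then -((N : ℤ) ^ 2 - 1) else (N : ℤ) ^ 2 - 1) := by
    unfold Pool.Agent.W683.QAT.ct Pool.Agent.W683.QAT.cst
    cases σ
    · simp only [Bool.false_eq_true, if_false]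
      rw [zpow_neg, inv_inv]
    · simp only [if_true]
  rw [← e]
  simp only [run_eq]
  exact Pool.Agent.W683.QAT.slide_all N v hv h f i s σ

/-- Examples: the full twists on two and on three strands. -/
example : fullTwist 0 2 true = [.cross 0 true, .cross 0 true] ∧
    fullTwist 0 3 true = [.cross 0 true, .cross 1 true, .cross 0 true,
      .cross 0 true, .cross 1 true, .cross 0 true] := ⟨by rfl, by rfl⟩

/-! ### The result -/

/-- The filter of the odd integers tending to infinity. -/
def oddTop : Filter ℕ := atTop ⊓ 𝓟 {n | Odd n}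

/-- **Full twists and the growth of the Kashaev invariants of all links along the odd integers.**
(1) For every `N ≥ 1` the coloured Jones polynomial is continuous at `v_N`, so that `kashaev D N` is
its value at `q = e^(2 π i / N)` in the usual sense.
(2) Let a link diagram, cut open at a point, consist of cups, caps, `c` crossings and powers of full
twists on `n_1, n_2, …` strands.  Then, as `N → ∞` through the odd integers,
`limsup (2 π / N) log |⟨L⟩_N| ≤ c v_8 + ∑_j n_j (π log (4 n_j² + 4) + 6 v_3)`, whatever the exponents of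
the full twists are. -/
theorem result :
    (∀ (D : Diagram) (N : ℕ), 1 ≤ N → ContinuousAt (jones N D) (root N)) ∧
    ∀ D : List TPiece, IsTangle (expand D) 1 1 → ∀ ε : ℝ, 0 < ε → ∀ᶠ N : ℕ in oddTop,
      2 * Real.pi * (Real.log ‖kashaev (expand D) N‖ / N) ≤ crossings D * v8 + twists D + ε := by
  refine ⟨fun D N hN => ?_, fun D _ ε hε => ?_⟩
  · rw [jones_eq]
    exact Pool.Agent.W613.QAT.cont (D.map tr) N hN
  · have hodd : oddTop ≤ atTop := inf_le_left
    filter_upwards [hodd (Pool.Agent.K7.H32.FT.growth (D.map ttr) ε hε)] with N h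
    rw [kashaev_eq, expand_eq, ← rate_eq]
    exact h

end Pool.Agent.Results.MP_b30479_gt.FullTwistsOdd
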