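import Pool.Agent.K7.H32.LV.Main
import Pool.Agent.H756R3.J.Cont
import Pool.Agent.W715.VC.Cross
import Pool.Agent.H105R3.JSanCurl
import Pool.Agent.H309R4.Jones.SanU
import Pool.Agent.H550R3.Jones.SanSkein699

/-!
# Non-vanishing and lower bounds for the Kashaev invariants at odd N

(1) For every link `L` with a closed braid diagram with `c` crossings and `n + 1` strands, and all
odd `N ≥ 3`: either `⟨L⟩_N = 0` or `log |⟨L⟩_N| ≥ - 22 (n + c) N (1 + log N)²`.  (The degree of the number field gives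
only `- C N²`.)
(2) For every knot `K`: `⟨K⟩_N ≠ 0` if `N` is a power of an odd prime, so that
`(2 π / N) log |⟨K⟩_N| ≥ - C (1 + log N)²` for these `N`.
(3) For every knot `K`, every odd `m ≥ 2` with `⟨K⟩_m ≠ 0` and every prime `p` prime to `2 m` with
`φ(2 m) log p > 22 (n + c) m (1 + log m)²`: `⟨K⟩_{m p^a} ≠ 0` for all `a`; and if `⟨K⟩_{m p^a} = 0` then
`⟨K⟩_m / p` is an algebraic integer.

Everything is defined from the R-matrix of `U_q(sl_2)`, with `v = q^{1/2}` and
`{k} = v^k - v^{-k}`.  The `N`-coloured Jones polynomial `cjones N n w v` of the closure of a braid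
word `w` on `n + 1` strands is the entry at the highest weight vector of the partial quantum trace
(over all strands but the first one) of the operator of `w` on the tensor power of the
`N`-dimensional irreducible representation.  The crossings carry the framing correction and the
unknot has value `1`.  The Kashaev invariant is its value at `v = exp (π i / N)`, that is
`q = exp (2 π i / N)`.

Outline.  The state sum is defined over every commutative ring, so that it is given by a Laurent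
polynomial with integer coefficients.  The product of its values at all the primitive roots of unity
of order `2 N` is an integer.  At `exp (π i k / N)` the state sum is at most
`N^n (N exp (5 M_k))^c`, `M_k` the maximum of `|log ∏_{j ≤ m} |2 sin (π j k / N)||` over `m < N`; by the
Fourier series of `log |1 - ρ e(x)|`, `ρ = 1 - 1 / N`, the sum of the `M_k` over the `k` prime to `N` is
at most `2 N (1 + log N)²`.  For (2): at a root of unity of order `2 m` the state sum of a knot with the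
colour `m s` (`s` odd, or `m = 1`) is equal to that with the colour `m` (Lucas' theorem for the indices modulo `m`), and
the cyclotomic polynomial of order `2 m p^a` is divisible by `p` at the primitive roots of unity of
order `2 m`; so if `⟨K⟩_{m p^a} = 0` then `p^φ(2m)` divides the norm of `⟨K⟩_m`, which is estimated by (1).
-/

set_option autoImplicit false

namespace Pool.Agent.Results.MP_b30479_gt.PrimePowerLowerBoundOdd

open Finset Filter Topology

/-! ### The coloured Jones polynomial -/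

/-- `{n} = v^n - v^{-n}` -/
noncomputable def br (v : ℂ) (n : ℤ) : ℂ := v ^ n - v ^ (-n)

/-- `{n}! = {1} {2} ⋯ {n}` -/
noncomputable def brf (v : ℂ) (n : ℕ) : ℂ := ∏ j ∈ range n, br v ((j : ℤ) + 1)

/-- The positive crossing: the R-matrix of `U_q(sl_2)` on `V_N ⊗ V_N`, `V_N` with basis
`e_0, …, e_{N-1}`, times the framing factor `v^{-(N^2-1)/2}`; `crossP N v p q` is the coefficient
of `e_{p.1} ⊗ e_{p.2}` in the image of `e_{q.1} ⊗ e_{q.2}`:
`e_i ⊗ e_j ↦ ∑_n v^{-(N-1)(1+i+j) + 2(i-n)(j+n) + n(n-1)/2}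
({j+n}! / ({j}! {n}!)) ∏_{t<n} {N-i+t} e_{j+n} ⊗ e_{i-n}`. -/
noncomputable def crossP (N : ℕ) (v : ℂ) : Matrix (Fin N × Fin N) (Fin N × Fin N) ℂ :=
  fun p q => if (p.1 : ℕ) + p.2 = q.1 + q.2 ∧ (q.2 : ℕ) ≤ p.1 then
    v ^ (-((N : ℤ) - 1) * (1 + (q.1 : ℕ) + (q.2 : ℕ)) + 2 * (p.1 : ℕ) * (p.2 : ℕ)) *
      v ^ (((p.1 : ℕ) - q.2) * ((p.1 : ℕ) - q.2 - 1) / 2) *
      (brf v p.1 / (brf v q.2 * brf v ((p.1 : ℕ) - q.2))) *
      ∏ t ∈ range ((p.1 : ℕ) - q.2), br v ((N : ℤ) - (q.1 : ℕ) + t)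
    else 0

/-- The negative crossing, inverse of `crossP N v`:
`e_i ⊗ e_j ↦ ∑_n (-1)^n v^{(N-1)(1+i+j) - 2ij - n(n-1)/2}
({i+n}! / ({i}! {n}!)) ∏_{t<n} {N-j+t} e_{j-n} ⊗ e_{i+n}`. -/
noncomputable def crossN (N : ℕ) (v : ℂ) : Matrix (Fin N × Fin N) (Fin N × Fin N) ℂ :=
  fun p q => if (p.1 : ℕ) + p.2 = q.1 + q.2 ∧ (q.1 : ℕ) ≤ p.2 then
    (-1) ^ ((p.2 : ℕ) - q.1) *
      v ^ (((N : ℤ) - 1) * (1 + (q.1 : ℕ) + (q.2 : ℕ)) - 2 * (q.1 : ℕ) * (q.2 : ℕ)) /
      v ^ (((p.2 : ℕ) - q.1) * ((p.2 : ℕ) - q.1 - 1) / 2) *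
      (brf v p.2 / (brf v q.1 * brf v ((p.2 : ℕ) - q.1))) *
      ∏ t ∈ range ((p.2 : ℕ) - q.1), br v ((N : ℤ) - (q.2 : ℕ) + t)
    else 0

/-- The braid generator `s_k` on `n` strands (it acts on the strands number `k` and `k + 1`,
counted from `0`) by the crossing matrix `A`. -/
def gen {ι : Type} [DecidableEq ι] (A : Matrix (ι × ι) (ι × ι) ℂ) (n k : ℕ) :
    Matrix (Fin n → ι) (Fin n → ι) ℂ :=
  fun s t => if h : k + 1 < n then
    (if ∀ j : Fin n, (j : ℕ) ≠ k → (j : ℕ) ≠ k + 1 → s j = t j then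
      A (s ⟨k, by omega⟩, s ⟨k + 1, h⟩) (t ⟨k, by omega⟩, t ⟨k + 1, h⟩) else 0)
    else (if s = t then 1 else 0)

/-- The operator of a braid word on `n` strands: the letter `(k, true)` is `s_k`, the letter
`(k, false)` is its inverse; `P` and `Q` are the matrices of the two crossings. -/
def rep {ι : Type} [Fintype ι] [DecidableEq ι] (P Q : Matrix (ι × ι) (ι × ι) ℂ) (n : ℕ)
    (w : List (ℕ × Bool)) : Matrix (Fin n → ι) (Fin n → ι) ℂ :=
  (w.map fun g => gen (if g.2 then P else Q) n g.1).prod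

/-- The partial trace over all strands but the first one, with weights `k`; `n + 1` strands. -/
def tail {ι : Type} [Fintype ι] (k : ι → ℂ) (n : ℕ)
    (A : Matrix (Fin (n + 1) → ι) (Fin (n + 1) → ι) ℂ) : Matrix ι ι ℂ :=
  fun i j => ∑ s : Fin n → ι, (∏ x, k (s x)) * A (Fin.cons i s) (Fin.cons j s)

/-- The `N`-coloured Jones polynomial (unknot `= 1`) of the closure of the braid word `w` on
`n + 1` strands, at `q = v^2`: the entry at the highest weight vector `e_0` of the partial quantum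
trace, with the weights `v^{N-1-2x}` of `K`. -/
noncomputable def cjones (N n : ℕ) (w : List (ℕ × Bool)) (v : ℂ) : ℂ :=
  if h : 0 < N then
    tail (fun x : Fin N => v ^ ((N : ℤ) - 1 - 2 * (x : ℕ))) n
      (rep (crossP N v) (crossN N v) (n + 1) w) ⟨0, h⟩ ⟨0, h⟩ else 0

/-- `v_N = exp (π i / N)`, so that `q = v_N^2 = exp (2 π i / N)`. -/
noncomputable def root (N : ℕ) : ℂ := Complex.exp (Real.pi * Complex.I / N)

/-- The Kashaev invariant of the closure of the braid word `w` on `n + 1` strands. -/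
noncomputable def kashaev (n : ℕ) (w : List (ℕ × Bool)) (N : ℕ) : ℂ := cjones N n w (root N)

/-! ### Knots -/

/-- The transposition of the strands `k` and `k + 1` of `n` strands. -/
def transposition (n k : ℕ) : Equiv.Perm (Fin n) :=
  if h : k + 1 < n then Equiv.swap ⟨k, by omega⟩ ⟨k + 1, h⟩ else 1

/-- The permutation of a braid word on `n` strands. -/
def perm (n : ℕ) (w : List (ℕ × Bool)) : Equiv.Perm (Fin n) :=
  (w.map fun g => transposition n g.1).prod

/-- The closure of the braid word `w` on `n + 1` strands is a knot: the permutation has only one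
orbit. -/
def IsKnot (n : ℕ) (w : List (ℕ × Bool)) : Prop :=
  ∀ i : Fin (n + 1), ∃ k : ℕ, ((perm (n + 1) w) ^ k) 0 = i

/-! ### Checks of the definitions (not part of the result) -/

/-- For `N = 2` the crossings satisfy the skein relation of the Jones polynomial. -/
theorem skein (v : ℂ) (hv : v ≠ 0) (h1 : br v 1 ≠ 0) :
    v ^ 2 • crossP 2 v - (v ^ 2)⁻¹ • crossN 2 v =
      (v - v⁻¹) • (1 : Matrix (Fin 2 × Fin 2) (Fin 2 × Fin 2) ℂ) :=
  Pool.Agent.H550R3.Jones.taskSanSkein v hv h1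

/-- The two crossings are inverse to each other. -/
theorem cross_inverse (N : ℕ) (v : ℂ) (hv : v ≠ 0)
    (h : ∀ k : ℕ, 0 < k → k < N → br v k ≠ 0) :
    crossP N v * crossN N v = 1 ∧ crossN N v * crossP N v = 1 :=
  Pool.Agent.H309R4.Jones.SanI.taskSanInv Pool.Agent.H345J.taskMod Pool.Agent.H345J.taskInv
    Pool.Agent.H559R3.J.taskCross N v ⟨hv, h⟩

/-- The Yang-Baxter equation, for every colour. -/
theorem yang_baxter (N : ℕ) (v : ℂ) (hv : v ≠ 0) (h : ∀ k : ℕ, 0 < k → k < N → br v k ≠ 0) :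
    gen (crossP N v) 3 0 * gen (crossP N v) 3 1 * gen (crossP N v) 3 0 =
      gen (crossP N v) 3 1 * gen (crossP N v) 3 0 * gen (crossP N v) 3 1 :=
  Pool.Agent.H927R2.J.SanYB.taskSanYB Pool.Agent.H345J.taskMod Pool.Agent.H345J.taskInt
    Pool.Agent.H345J.taskInv Pool.Agent.H667J.taskHex1 Pool.Agent.H22R3.J.taskNat
    Pool.Agent.H559R3.J.taskCross N v ⟨hv, h⟩

/-- Curls may be removed: the framing is normalised. -/
theorem curl (N : ℕ) (v : ℂ) (hv : v ≠ 0) (h : ∀ k : ℕ, 0 < k → k < N → br v k ≠ 0) :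
    (fun i j => ∑ x : Fin N, v ^ ((N : ℤ) - 1 - 2 * (x : ℕ)) * crossP N v (i, x) (j, x)) =
      (1 : Matrix (Fin N) (Fin N) ℂ) ∧
    (fun i j => ∑ x : Fin N, v ^ ((N : ℤ) - 1 - 2 * (x : ℕ)) * crossN N v (i, x) (j, x)) =
      (1 : Matrix (Fin N) (Fin N) ℂ) :=
  Pool.Agent.H105R3.JSan.taskSanCurl N v ⟨hv, h⟩

/-- The unknot has the value `1`. -/
theorem unknot (N : ℕ) (v : ℂ) (hN : 0 < N) (hv : v ≠ 0)
    (h : ∀ k : ℕ, 0 < k → k < N → br v k ≠ 0) :
    cjones N 0 [] v = 1 ∧ cjones N 1 [(0, true)] v = 1 ∧ cjones N 1 [(0, false)] v = 1 :=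
  Pool.Agent.H309R4.Jones.SanU.taskSanUnknot N v hN ⟨hv, h⟩

/-! ### The result -/

lemma cont (n : ℕ) (w : List (ℕ × Bool)) (N : ℕ) (hN : 1 ≤ N) :
    ContinuousAt (cjones N n w) (root N) := by
  have h : root N ≠ 0 := Complex.exp_ne_zero _
  exact Pool.Agent.H756R3.J.taskCont N (root N) h
    (Pool.Agent.K7.H32.LV.prim_adm hN (Pool.Agent.K7.H32.LV.rt_prim hN)).2 n w

/-- **Non-vanishing and lower bounds for the Kashaev invariants `a_N = J_N(L; e^(2 π i / N))`, odd `N`.**
(1) The coloured Jones polynomials are continuous at `v_N`, so that `kashaev` is their value at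
`q = e^(2 π i / N)` in the usual sense.
(2) Let `L` be the closure of the braid word `w` with `c` letters on `n + 1` strands.  For all odd
`N ≥ 3`, `a_N = 0` or `log |a_N| ≥ - 22 (n + c) N (1 + log N)²`.
(3) Let `K` be a knot which is the closure of the braid word `w`.  Then `a_N ≠ 0` for all powers `N` of
odd primes; if `m` and `p` are odd, `p` is a prime which does not divide `m` and `a_{m p^a} = 0` then
`a_m / p` is an algebraic integer, and `φ(2 m) log p ≤ 22 (n + c) m (1 + log m)²` if moreover `m ≥ 3` and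
`a_m ≠ 0`. -/
theorem result :
    (∀ (n : ℕ) (w : List (ℕ × Bool)) (N : ℕ), 1 ≤ N → ContinuousAt (cjones N n w) (root N)) ∧
    (∀ (n : ℕ) (w : List (ℕ × Bool)) (N : ℕ), Odd N → 3 ≤ N → kashaev n w N ≠ 0 →
      -(22 * (n + w.length) * N * (1 + Real.log N) ^ 2) ≤ Real.log ‖kashaev n w N‖) ∧
    ∀ (n : ℕ) (w : List (ℕ × Bool)), IsKnot n w →
      (∀ p a : ℕ, p.Prime → Odd p → kashaev n w (p ^ a) ≠ 0) ∧
      ∀ m p a : ℕ, Odd m → p.Prime → Odd p → ¬ p ∣ m → kashaev n w (m * p ^ a) = 0 →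
        IsIntegral ℤ (kashaev n w m / (p : ℂ)) ∧
        (3 ≤ m → kashaev n w m ≠ 0 →
          Nat.totient (2 * m) * Real.log p ≤ 22 * (n + w.length) * m * (1 + Real.log m) ^ 2) := by
  have h2 : ∀ m p : ℕ, p.Prime → Odd p → ¬ p ∣ m → ¬ p ∣ 2 * m := by
    intro m p hp ho hpm h2
    rcases (Nat.Prime.dvd_mul hp).1 h2 with h3 | h3
    · have h4 := (Nat.prime_dvd_prime_iff_eq hp Nat.prime_two).1 h3
      subst h4
      exact absurd ho (by decide)
    · exact hpm h3
  exact ⟨fun n w N hN => cont n w N hN, fun n w N _ hN h =>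
      Pool.Agent.K7.H32.LV.low N n w (by omega) h,
    fun n w h => ⟨fun p a hp _ => Pool.Agent.K7.H32.LV.prime_power n w h p a hp,
      fun m p a hm hp ho hpm h0 =>
        ⟨Pool.Agent.K7.H32.LV.integral n w h m p a hm.pos hp (h2 m p hp ho hpm) h0,
        fun h3 hne => Pool.Agent.K7.H32.LV.bound n w h m p a (by omega) hp (h2 m p hp ho hpm) h0
          hne⟩⟩⟩

end Pool.Agent.Results.MP_b30479_gt.PrimePowerLowerBoundOdd
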